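import Pool.Agent.CHG.Crit
import Pool.Agent.CHU.Pairs
import Pool.Agent.CHU.Core2

/-! # The criterion in the form `CHU.CritH` -/

set_option autoImplicit false

namespace Pool.Agent.CHG

open Finset Filter Topology

theorem support_card_le {r : ℕ} (P : MvPolynomial (Fin r) ℤ) {d : ℕ} (hd : P.totalDegree ≤ d) :
    P.support.card ≤ (d + 1) ^ r := by
  classical
  calc P.support.card ≤ (Fintype.piFinset (fun _ : Fin r => Finset.range (d + 1))).card := by
        refine Finset.card_le_card_of_injOn (fun m => (m : Fin r → ℕ)) ?_ ?_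
        · intro m hm
          rw [Finset.mem_coe, Fintype.mem_piFinset]
          intro i
          rw [Finset.mem_range]
          have h1 := MvPolynomial.le_totalDegree hm
          rw [Finsupp.sum_fintype _ _ (fun _ => rfl)] at h1
          have h2 : m i ≤ ∑ i, m i := Finset.single_le_sum (f := fun i => m i) (fun _ _ => Nat.zero_le _)
            (Finset.mem_univ i)
          change m i < d + 1
          omega
        · intro m _ m' _ h
          exact DFunLike.coe_injective h
    _ = (d + 1) ^ r := by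
        rw [Fintype.card_piFinset]
        simp

theorem critH {r : ℕ} (v : Fin (r + 1) → ℂ) (h0 : Transcendental ℚ (v 0))
    (h : ∀ i, v i ∈ Pool.Agent.CHU.FF (v 0)) : ∃ Ca : ℝ, 0 < Ca ∧ Pool.Agent.CHU.CritH v Ca := by
  obtain ⟨Ca, hCa, h2⟩ := crit_theta (v 0) (transc_int h0) v (fun i => alg_poly h0 (h i))
  refine ⟨Ca * (r + 2), by positivity, ?_⟩
  intro A' B' hA' hB' N0
  set A : ℝ := (A' : ℝ) with hAdef
  set B : ℝ := (B' : ℝ) * (r + 2) with hBdef
  have hA : 1 ≤ A := by
    rw [hAdef]
    exact_mod_cast hA'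
  have hB1 : (1 : ℝ) ≤ (B' : ℝ) := by exact_mod_cast hB'
  have hB : 1 ≤ B := by
    have : (1 : ℝ) ≤ (r : ℝ) + 2 := by
      have : (0 : ℝ) ≤ r := Nat.cast_nonneg r
      linarith
    rw [hBdef]
    nlinarith
  set N1 : ℕ := max (max N0 3) ⌈Real.exp A⌉₊ with hN1
  have hbase : ∀ N : ℕ, N ≥ N1 → (3 : ℝ) ≤ N ∧ A ≤ Real.log N ∧ Real.exp A ≤ N := by
    intro N hN
    have e1 : 3 ≤ N := le_trans (le_trans (le_max_right _ _) (le_max_left _ _)) hN
    have e2 : ⌈Real.exp A⌉₊ ≤ N := le_trans (le_max_right _ _) hN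
    have e3 : Real.exp A ≤ N := (Nat.le_ceil _).trans (by exact_mod_cast e2)
    refine ⟨by exact_mod_cast e1, ?_, e3⟩
    rw [Real.le_log_iff_exp_le (by positivity)]
    exact e3
  have hlogtwo : ∀ N : ℕ, (3 : ℝ) ≤ N → Real.log ((N : ℝ) + 1) ≤ 3 / 2 * Real.log N := by
    intro N hN
    have e3 : ((N : ℝ) + 1) ^ 2 ≤ (N : ℝ) ^ 3 := by nlinarith
    have e4 := Real.log_le_log (by positivity) e3
    rw [Real.log_pow, Real.log_pow] at e4
    push_cast at e4
    linarith
  obtain ⟨N, hN, hP⟩ := h2 (fun N => A * N) (fun N => B * N * Real.log N) N1 (by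
    intro N hN
    obtain ⟨e1, e2, -⟩ := hbase N hN
    have e3 := hlogtwo N e1
    have e4 : Real.log N ≤ Real.log ((N : ℝ) + 1) := Real.log_le_log (by linarith) (by linarith)
    have e5 : 1 ≤ Real.log N := hA.trans e2
    have e6 : 0 ≤ B * N := by positivity
    push_cast
    refine ⟨by nlinarith, ?_, by nlinarith, by nlinarith, ?_, ?_⟩
    · have : A * N ≤ Real.log N * N := mul_le_mul_of_nonneg_right e2 (by linarith)
      have h7 : 0 ≤ Real.log N * N := by positivity
      nlinarith
    · have h7 : B * (N : ℝ) ≤ B * ((N : ℝ) + 1) := by nlinarith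
      exact mul_le_mul h7 e4 (by linarith) (by positivity)
    · have h7 : B * ((N : ℝ) + 1) ≤ 4 / 3 * (B * N) := by nlinarith
      calc B * ((N : ℝ) + 1) * Real.log ((N : ℝ) + 1) ≤ 4 / 3 * (B * N) * (3 / 2 * Real.log N) :=
            mul_le_mul h7 e3 (by linarith) (by positivity)
        _ = 2 * (B * N * Real.log N) := by ring) (by
    have t1 : Tendsto (fun N : ℕ => (N : ℝ)) atTop atTop := tendsto_natCast_atTop_atTop
    have t2 : Tendsto (fun N : ℕ => Real.log (N : ℝ)) atTop atTop := Real.tendsto_log_atTop.comp t1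
    exact (t1.const_mul_atTop (by linarith : (0 : ℝ) < B)).atTop_mul_atTop₀ t2)
  refine ⟨N, le_trans (le_trans (le_max_left _ _) (le_max_left _ _)) hN, ?_⟩
  intro P hPd hPc
  obtain ⟨e1, e2, e3⟩ := hbase N hN
  have hNpos : (0 : ℝ) < N := by linarith
  have hlogN : 1 ≤ Real.log N := hA.trans e2
  have hAN : A + 1 ≤ N := by
    have := Real.add_one_le_exp A
    linarith
  -- the number of the monomials
  have hcard : ((P.support.card : ℕ) : ℝ) ≤ Real.exp ((r + 1) * (N * Real.log N)) := by
    have f1 := support_card_le P hPd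
    have f2 : ((A' * N + 1 : ℕ) : ℝ) ≤ Real.exp (N * Real.log N) := by
      push_cast
      rw [← hAdef]
      have f3 : A * N + 1 ≤ (N : ℝ) ^ 2 := by nlinarith
      have f4 : (N : ℝ) ^ 2 = Real.exp (2 * Real.log N) := by
        rw [show (2 : ℝ) * Real.log N = ((2 : ℕ) : ℝ) * Real.log N by norm_num, Real.exp_nat_mul,
          Real.exp_log hNpos]
      rw [f4] at f3
      refine f3.trans (Real.exp_le_exp.2 ?_)
      exact mul_le_mul_of_nonneg_right (by linarith) (by linarith)
    calc ((P.support.card : ℕ) : ℝ) ≤ (((A' * N + 1) ^ (r + 1) : ℕ) : ℝ) := by exact_mod_cast f1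
      _ = ((A' * N + 1 : ℕ) : ℝ) ^ (r + 1) := by push_cast; ring
      _ ≤ Real.exp (N * Real.log N) ^ (r + 1) := pow_le_pow_left₀ (Nat.cast_nonneg _) f2 _
      _ = Real.exp ((r + 1) * (N * Real.log N)) := by
          rw [← Real.exp_nat_mul]
          push_cast
          ring_nf
  have hlen : (∑ k ∈ P.support, |((P.coeff k : ℤ) : ℝ)|) ≤ Real.exp (B * N * Real.log N) := by
    calc (∑ k ∈ P.support, |((P.coeff k : ℤ) : ℝ)|) ≤ ∑ _k ∈ P.support, Real.exp (B' * N * Real.log N) := by
          refine Finset.sum_le_sum fun k _ => ?_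
          have := hPc k
          push_cast at this
          exact this
      _ = P.support.card * Real.exp (B' * N * Real.log N) := by rw [Finset.sum_const, nsmul_eq_mul]
      _ ≤ Real.exp ((r + 1) * (N * Real.log N)) * Real.exp (B' * N * Real.log N) :=
          mul_le_mul_of_nonneg_right hcard (Real.exp_nonneg _)
      _ = Real.exp ((r + 1) * (N * Real.log N) + B' * N * Real.log N) := by rw [← Real.exp_add]
      _ ≤ Real.exp (B * N * Real.log N) := by
          apply Real.exp_le_exp.2
          have f5 : 0 ≤ N * Real.log N := by positivity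
          have f6 : (r + 1 : ℝ) * (N * Real.log N) ≤ B' * (r + 1) * (N * Real.log N) := by
            refine mul_le_mul_of_nonneg_right ?_ f5
            have : (0 : ℝ) ≤ (r : ℝ) + 1 := by positivity
            nlinarith
          rw [hBdef]
          nlinarith
  rcases hP P (by rw [hAdef]; exact_mod_cast hPd) hlen with h | h
  · exact Or.inl h
  · right
    refine lt_of_le_of_lt (le_of_eq ?_) h
    congr 1
    rw [hBdef, hAdef]
    ring

end Pool.Agent.CHG
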