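import Pool.Agent.CHG.Rep

/-! # The lowest nonzero coefficient of the characteristic polynomial -/

set_option autoImplicit false

namespace Pool.Agent.CHG

open Polynomial Finset

/-- the length of a polynomial with coefficients in `ℤ[X]` -/
noncomputable def l2 (p : ℤ[X][X]) : ℝ := ∑ i ∈ Finset.range (p.natDegree + 1), l1 (p.coeff i)

theorem l2_eq (p : ℤ[X][X]) {n : ℕ} (hn : p.natDegree < n) :
    l2 p = ∑ i ∈ Finset.range n, l1 (p.coeff i) := by
  unfold l2
  refine Finset.sum_subset ?_ ?_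
  · intro x hx
    simp only [Finset.mem_range] at *
    omega
  · intro x _ hx
    simp only [Finset.mem_range, not_lt] at hx
    rw [Polynomial.coeff_eq_zero_of_natDegree_lt (by omega), l1_zero]

theorem l2_nonneg (p : ℤ[X][X]) : 0 ≤ l2 p := Finset.sum_nonneg fun _ _ => l1_nonneg _

theorem l2_zero : l2 0 = 0 := by simp [l2, l1_zero]

theorem l2_add (p q : ℤ[X][X]) : l2 (p + q) ≤ l2 p + l2 q := by
  set n := max p.natDegree q.natDegree + 1 with hn
  have h1 : (p + q).natDegree < n := by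
    have := Polynomial.natDegree_add_le p q
    omega
  rw [l2_eq _ h1, l2_eq p (n := n) (by omega), l2_eq q (n := n) (by omega),
    ← Finset.sum_add_distrib]
  refine Finset.sum_le_sum fun i _ => ?_
  rw [Polynomial.coeff_add]
  exact l1_add _ _

theorem l2_sum {ι : Type*} (s : Finset ι) (f : ι → ℤ[X][X]) : l2 (∑ i ∈ s, f i) ≤ ∑ i ∈ s, l2 (f i) := by
  classical
  induction s using Finset.induction_on with
  | empty => simp [l2_zero]
  | insert a s ha ih =>
    rw [Finset.sum_insert ha, Finset.sum_insert ha]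
    exact (l2_add _ _).trans (by linarith)

theorem l2_neg (p : ℤ[X][X]) : l2 (-p) = l2 p := by
  simp [l2, l1_neg]

theorem l2_C_mul (a : ℤ[X]) (p : ℤ[X][X]) : l2 (C a * p) ≤ l1 a * l2 p := by
  rw [l2_eq (C a * p) (n := p.natDegree + 1) (by
    have := Polynomial.natDegree_C_mul_le a p
    omega), l2, Finset.mul_sum]
  refine Finset.sum_le_sum fun i _ => ?_
  rw [Polynomial.coeff_C_mul]
  exact l1_mul _ _

theorem l2_C (a : ℤ[X]) : l2 (C a) = l1 a := by
  simp [l2]

theorem l2_X_pow_mul (k : ℕ) (p : ℤ[X][X]) : l2 (X ^ k * p) ≤ l2 p := by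
  by_cases hp : p = 0
  · simp [hp]
  rw [l2_eq (X ^ k * p) (n := k + (p.natDegree + 1)) (by
    have := Polynomial.natDegree_mul_le (p := (X : ℤ[X][X]) ^ k) (q := p)
    have h2 := Polynomial.natDegree_X_pow_le (R := ℤ[X]) k
    omega)]
  rw [Finset.sum_range_add, l2]
  have h1 : ∑ x ∈ Finset.range k, l1 ((X ^ k * p : ℤ[X][X]).coeff x) = 0 := by
    refine Finset.sum_eq_zero fun i hi => ?_
    rw [Finset.mem_range] at hi
    rw [Polynomial.coeff_X_pow_mul', if_neg (by omega), l1_zero]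
  rw [h1, zero_add]
  refine Finset.sum_le_sum fun i _ => ?_
  rw [Polynomial.coeff_X_pow_mul', if_pos (by omega)]
  simp

theorem l2_mul (p q : ℤ[X][X]) : l2 (p * q) ≤ l2 p * l2 q := by
  have h : p * q = ∑ i ∈ Finset.range (p.natDegree + 1), C (p.coeff i) * (X ^ i * q) := by
    conv_lhs => rw [p.as_sum_range_C_mul_X_pow]
    rw [Finset.sum_mul]
    exact Finset.sum_congr rfl fun i _ => by ring
  rw [h]
  refine (l2_sum _ _).trans ?_
  rw [show l2 p = ∑ i ∈ Finset.range (p.natDegree + 1), l1 (p.coeff i) from rfl, Finset.sum_mul]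
  refine Finset.sum_le_sum fun i _ => ?_
  exact (l2_C_mul _ _).trans (mul_le_mul_of_nonneg_left (l2_X_pow_mul _ _) (l1_nonneg _))

theorem l1_coeff_le (p : ℤ[X][X]) (i : ℕ) : l1 (p.coeff i) ≤ l2 p := by
  by_cases hi : i ≤ p.natDegree
  · exact Finset.single_le_sum (f := fun i => l1 (p.coeff i)) (fun _ _ => l1_nonneg _)
      (Finset.mem_range.2 (Nat.lt_succ_of_le hi))
  · rw [Polynomial.coeff_eq_zero_of_natDegree_lt (by omega), l1_zero]
    exact l2_nonneg p

/-- all coefficients have degree `≤ n` -/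
def DL (n : ℕ) (p : ℤ[X][X]) : Prop := ∀ i, (p.coeff i).natDegree ≤ n

theorem DL.add {n : ℕ} {p q : ℤ[X][X]} (hp : DL n p) (hq : DL n q) : DL n (p + q) := fun i => by
  rw [coeff_add]
  exact (natDegree_add_le _ _).trans (max_le (hp i) (hq i))

theorem DL.neg {n : ℕ} {p : ℤ[X][X]} (hp : DL n p) : DL n (-p) := fun i => by
  rw [coeff_neg, natDegree_neg]
  exact hp i

theorem DL.zero (n : ℕ) : DL n 0 := fun i => by simp

theorem DL.one (n : ℕ) : DL n 1 := fun i => by
  rw [coeff_one]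
  split_ifs <;> simp

theorem DL.mul {n n' : ℕ} {p q : ℤ[X][X]} (hp : DL n p) (hq : DL n' q) : DL (n + n') (p * q) := fun i => by
  rw [coeff_mul]
  refine natDegree_sum_le_of_forall_le _ _ fun x _ => ?_
  exact natDegree_mul_le.trans (add_le_add (hp _) (hq _))

theorem DL.sum {n : ℕ} {ι : Type*} (s : Finset ι) (f : ι → ℤ[X][X]) (h : ∀ i ∈ s, DL n (f i)) :
    DL n (∑ i ∈ s, f i) := fun i => by
  rw [finsetSum_coeff]
  exact natDegree_sum_le_of_forall_le _ _ fun x hx => h x hx i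

theorem DL.prod {n : ℕ} {ι : Type*} (s : Finset ι) (f : ι → ℤ[X][X]) (h : ∀ i ∈ s, DL n (f i)) :
    DL (s.card * n) (∏ i ∈ s, f i) := by
  classical
  induction s using Finset.induction_on with
  | empty => simpa using DL.one 0
  | insert i s hi ih =>
    rw [Finset.prod_insert hi, Finset.card_insert_of_notMem hi, Nat.succ_mul, add_comm]
    exact (h i (Finset.mem_insert_self _ _)).mul (ih fun j hj => h j (Finset.mem_insert_of_mem hj))

theorem DL.det {n : ℕ} {m : ℕ} (A : Matrix (Fin m) (Fin m) ℤ[X][X]) (h : ∀ s t, DL n (A s t)) :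
    DL (m * n) A.det := by
  rw [Matrix.det_apply]
  refine DL.sum _ _ fun σ _ => ?_
  have h1 : DL (m * n) (∏ i, A (σ i) i) := by
    have := DL.prod (n := n) Finset.univ (fun i => A (σ i) i) (fun i _ => h _ _)
    rwa [Finset.card_univ, Fintype.card_fin] at this
  rcases Int.units_eq_one_or (Equiv.Perm.sign σ) with h2 | h2
  · rw [h2, one_smul]
    exact h1
  · rw [h2, Units.neg_smul, one_smul]
    exact h1.neg

theorem charmatrix_DL {n : ℕ} {m : ℕ} (B : Matrix (Fin m) (Fin m) ℤ[X]) (h : ∀ s t, (B s t).natDegree ≤ n)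
    (s t : Fin m) : DL n (B.charmatrix s t) := by
  intro i
  rw [Matrix.charmatrix_apply, coeff_sub, coeff_C]
  refine (natDegree_sub_le _ _).trans (max_le ?_ ?_)
  · by_cases hst : s = t
    · subst hst
      rw [Matrix.diagonal_apply_eq, coeff_X]
      split_ifs <;> simp
    · rw [Matrix.diagonal_apply_ne _ hst]
      simp
  · split_ifs
    · exact h s t
    · simp

theorem charmatrix_l2 {m : ℕ} (B : Matrix (Fin m) (Fin m) ℤ[X]) {β : ℝ} (h : ∀ s, ∑ t, l1 (B s t) ≤ β)
    (s : Fin m) : ∑ t, l2 (B.charmatrix s t) ≤ 1 + β := by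
  have hX : l2 (X : ℤ[X][X]) ≤ 1 := by
    have := l2_X_pow_mul 1 1
    rw [mul_one, pow_one] at this
    refine this.trans ?_
    have h2 := l2_C (1 : ℤ[X])
    rw [map_one, l1_one] at h2
    exact h2.le
  have h1 : ∀ t, l2 (B.charmatrix s t) ≤ (if s = t then 1 else 0) + l1 (B s t) := by
    intro t
    rw [Matrix.charmatrix_apply, sub_eq_add_neg]
    refine (l2_add _ _).trans (add_le_add ?_ ?_)
    · by_cases hst : s = t
      · subst hst
        rw [Matrix.diagonal_apply_eq, if_pos rfl]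
        exact hX
      · rw [Matrix.diagonal_apply_ne _ hst, l2_zero, if_neg hst]
    · rw [l2_neg, l2_C]
  refine (Finset.sum_le_sum fun t _ => h1 t).trans ?_
  rw [Finset.sum_add_distrib]
  have h2 : ∑ t : Fin m, (if s = t then (1 : ℝ) else 0) = 1 := by simp
  rw [h2]
  have := h s
  linarith

/-- From a small nonzero number acting by a matrix one gets a small nonzero value at `θ` of an integer
polynomial of controlled degree and length. -/
theorem Rep.small {θ : ℂ} {m : ℕ} {v : Fin m → ℂ} (hv : v ≠ 0)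
    {n : ℕ} {β : ℝ} {x : ℂ} (hx : x ≠ 0) (hx1 : ‖x‖ ≤ 1) (h : Rep θ v n β x) :
    ∃ q : ℤ[X], q ≠ 0 ∧ q.natDegree ≤ m * n ∧ l1 q ≤ (1 + β) ^ m ∧
      ‖aeval θ q‖ ≤ ‖x‖ * ((1 + β) ^ m * max 1 ‖θ‖ ^ (m * n)) := by
  obtain ⟨hβ, B, h1, h2, h3⟩ := h
  set χ : ℤ[X][X] := B.charpoly with hχ
  have hDL : DL (m * n) χ := by
    rw [hχ, Matrix.charpoly]
    exact DL.det _ (charmatrix_DL B h2)
  have hl2 : l2 χ ≤ (1 + β) ^ m := by
    rw [hχ, Matrix.charpoly, ← Matrix.det_transpose]
    refine (det_le l2 l2_nonneg l2_zero l2_add l2_mul ?_ l2_neg _).trans ?_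
    · have h4 := l2_C (1 : ℤ[X])
      rw [map_one, l1_one] at h4
      exact h4.le
    · calc ∏ j, ∑ i, l2 (B.charmatrix.transpose i j) ≤ ∏ _j : Fin m, (1 + β) := by
            refine Finset.prod_le_prod (fun j _ => Finset.sum_nonneg fun _ _ => l2_nonneg _) fun j _ => ?_
            exact charmatrix_l2 B h3 j
        _ = (1 + β) ^ m := by simp
  have hroot : (χ.map (aeval θ : ℤ[X] →ₐ[ℤ] ℂ).toRingHom).eval x = 0 := by
    rw [hχ, ← Matrix.charpoly_map, Matrix.eval_charpoly]
    refine Matrix.exists_mulVec_eq_zero_iff.1 ⟨v, hv, ?_⟩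
    funext s
    rw [Matrix.sub_mulVec, Pi.sub_apply]
    have e1 : ((Matrix.scalar (Fin m)) x).mulVec v s = x * v s := by
      rw [Matrix.scalar_apply, Matrix.mulVec_diagonal]
    have e2 : (B.map (aeval θ : ℤ[X] →ₐ[ℤ] ℂ).toRingHom).mulVec v s = x * v s := by
      rw [← h1 s]
      rfl
    rw [e1, e2]
    simp
  have hχ0 : χ ≠ 0 := (Matrix.charpoly_monic B).ne_zero
  set s := χ.natTrailingDegree with hs
  have hq0 : χ.coeff s ≠ 0 := by
    have := (Polynomial.trailingCoeff_nonzero_iff_nonzero (p := χ)).2 hχ0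
    exact this
  have hm : χ.natDegree = m := by
    rw [hχ, Matrix.charpoly_natDegree_eq_dim, Fintype.card_fin]
  have hsm : s ≤ m := by
    rw [← hm]
    exact natTrailingDegree_le_natDegree χ
  refine ⟨χ.coeff s, hq0, hDL s, (l1_coeff_le χ s).trans hl2, ?_⟩
  rw [eval_map, eval₂_eq_sum_range, hm] at hroot
  have hsplit : m + 1 = s + 1 + (m - s) := by omega
  rw [hsplit, Finset.sum_range_add, Finset.sum_range_succ] at hroot
  have hlow : ∑ i ∈ Finset.range s, (aeval θ : ℤ[X] →ₐ[ℤ] ℂ).toRingHom (χ.coeff i) * x ^ i = 0 := by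
    refine Finset.sum_eq_zero fun i hi => ?_
    rw [Finset.mem_range] at hi
    rw [coeff_eq_zero_of_lt_natTrailingDegree hi]
    simp
  rw [hlow, zero_add] at hroot
  have hxs : x ^ s ≠ 0 := pow_ne_zero _ hx
  have hq : aeval θ (χ.coeff s) = -(x * ∑ i ∈ Finset.range (m - s), aeval θ (χ.coeff (s + 1 + i)) * x ^ i) := by
    have e3 : x ^ s * (aeval θ (χ.coeff s) + x * ∑ i ∈ Finset.range (m - s),
        aeval θ (χ.coeff (s + 1 + i)) * x ^ i) = 0 := by
      rw [← hroot, mul_add, Finset.mul_sum, Finset.mul_sum]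
      congr 1
      · exact mul_comm _ _
      · refine Finset.sum_congr rfl fun i _ => ?_
        change x ^ s * (x * (aeval θ (χ.coeff (s + 1 + i)) * x ^ i)) = aeval θ (χ.coeff (s + 1 + i)) * x ^ (s + 1 + i)
        ring
    rcases mul_eq_zero.1 e3 with h | h
    · exact absurd h hxs
    · exact eq_neg_of_add_eq_zero_left h
  rw [hq, norm_neg, norm_mul]
  refine mul_le_mul_of_nonneg_left ?_ (norm_nonneg _)
  calc ‖∑ i ∈ Finset.range (m - s), aeval θ (χ.coeff (s + 1 + i)) * x ^ i‖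
      ≤ ∑ i ∈ Finset.range (m - s), l1 (χ.coeff (s + 1 + i)) * max 1 ‖θ‖ ^ (m * n) := by
        refine (norm_sum_le _ _).trans (Finset.sum_le_sum fun i _ => ?_)
        rw [norm_mul, norm_pow]
        have e4 := norm_aeval_le θ (χ.coeff (s + 1 + i)) (hDL (s + 1 + i))
        have e5 : ‖x‖ ^ i ≤ 1 := pow_le_one₀ (norm_nonneg _) hx1
        calc ‖aeval θ (χ.coeff (s + 1 + i))‖ * ‖x‖ ^ i ≤ ‖aeval θ (χ.coeff (s + 1 + i))‖ * 1 :=
              mul_le_mul_of_nonneg_left e5 (norm_nonneg _)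
          _ ≤ _ := by rw [mul_one]; exact e4
    _ = (∑ i ∈ Finset.range (m - s), l1 (χ.coeff (s + 1 + i))) * max 1 ‖θ‖ ^ (m * n) := by
        rw [Finset.sum_mul]
    _ ≤ l2 χ * max 1 ‖θ‖ ^ (m * n) := by
        refine mul_le_mul_of_nonneg_right ?_ (by positivity)
        rw [l2, hm, hsplit, Finset.sum_range_add]
        have : 0 ≤ ∑ i ∈ Finset.range (s + 1), l1 (χ.coeff i) := Finset.sum_nonneg fun _ _ => l1_nonneg _
        linarith
    _ ≤ (1 + β) ^ m * max 1 ‖θ‖ ^ (m * n) := mul_le_mul_of_nonneg_right hl2 (by positivity)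

end Pool.Agent.CHG
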