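import Pool.Agent.CHG.Char

/-! # Reduction of the criterion to one variable -/

set_option autoImplicit false

namespace Pool.Agent.CHG

open Polynomial Finset

theorem reduce (θ : ℂ) (hθ : ∀ p : ℤ[X], p ≠ 0 → aeval θ p ≠ 0) {r : ℕ} (a : Fin r → ℂ)
    (ha : ∀ j, ∃ F : ℤ[X][X], F ≠ 0 ∧ F.eval₂ (aeval θ : ℤ[X] →ₐ[ℤ] ℂ).toRingHom (a j) = 0) :
    ∃ K : ℝ, 1 ≤ K ∧ ∀ (P : MvPolynomial (Fin r) ℤ) (D h : ℝ), 1 ≤ D → D ≤ h →
      (P.totalDegree : ℝ) ≤ D → (∑ k ∈ P.support, |((P.coeff k : ℤ) : ℝ)|) ≤ Real.exp h →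
      MvPolynomial.aeval a P ≠ 0 → ‖MvPolynomial.aeval a P‖ ≤ Real.exp (-(K * D)) →
      ∃ q : ℤ[X], q ≠ 0 ∧ (q.natDegree : ℝ) ≤ K * D ∧ l1 q ≤ Real.exp (K * h) ∧
        ‖aeval θ q‖ ≤ ‖MvPolynomial.aeval a P‖ * Real.exp (K * h) := by
  obtain ⟨d, m, v, B, hd, hv, hB⟩ := exists_rep θ hθ a ha
  set κ : ℕ := d.natDegree + ∑ j, ∑ s, ∑ t, (B j s t).natDegree with hκ
  set γ : ℝ := 1 + l1 d + ∑ j, ∑ s, ∑ t, l1 (B j s t) with hγ
  have hsum0 : 0 ≤ ∑ j, ∑ s, ∑ t, l1 (B j s t) :=
    Finset.sum_nonneg fun _ _ => Finset.sum_nonneg fun _ _ => Finset.sum_nonneg fun _ _ => l1_nonneg _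
  have hγ1 : 1 ≤ γ := by
    have := l1_nonneg d
    linarith
  have hγ0 : 0 ≤ Real.log γ := Real.log_nonneg hγ1
  have hRd : Rep θ v κ γ (aeval θ d) := (Rep.scalar d).mono (Nat.le_add_right _ _) (by linarith)
  have hRa : ∀ j, Rep θ v κ γ (aeval θ d * a j) := by
    intro j
    refine ⟨by linarith, B j, hB j, ?_, ?_⟩
    · intro s t
      have e1 : (B j s t).natDegree ≤ ∑ t, (B j s t).natDegree :=
        Finset.single_le_sum (f := fun t => (B j s t).natDegree) (fun _ _ => Nat.zero_le _) (Finset.mem_univ t)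
      have e2 : ∑ t, (B j s t).natDegree ≤ ∑ s, ∑ t, (B j s t).natDegree :=
        Finset.single_le_sum (f := fun s => ∑ t, (B j s t).natDegree) (fun _ _ => Nat.zero_le _) (Finset.mem_univ s)
      have e3 : ∑ s, ∑ t, (B j s t).natDegree ≤ ∑ j, ∑ s, ∑ t, (B j s t).natDegree :=
        Finset.single_le_sum (f := fun j => ∑ s, ∑ t, (B j s t).natDegree) (fun _ _ => Nat.zero_le _) (Finset.mem_univ j)
      omega
    · intro s
      have e2 : ∑ t, l1 (B j s t) ≤ ∑ s, ∑ t, l1 (B j s t) :=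
        Finset.single_le_sum (f := fun s => ∑ t, l1 (B j s t))
          (fun _ _ => Finset.sum_nonneg fun _ _ => l1_nonneg _) (Finset.mem_univ s)
      have e3 : ∑ s, ∑ t, l1 (B j s t) ≤ ∑ j, ∑ s, ∑ t, l1 (B j s t) :=
        Finset.single_le_sum (f := fun j => ∑ s, ∑ t, l1 (B j s t))
          (fun _ _ => Finset.sum_nonneg fun _ _ => Finset.sum_nonneg fun _ _ => l1_nonneg _) (Finset.mem_univ j)
      have := l1_nonneg d
      linarith
  set Δ : ℝ := max 1 ‖aeval θ d‖ with hΔ
  have hΔ1 : 1 ≤ Δ := le_max_left _ _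
  have hΔ0 : 0 ≤ Real.log Δ := Real.log_nonneg hΔ1
  set M : ℝ := max 1 ‖θ‖ with hM
  have hM1 : 1 ≤ M := le_max_left _ _
  have hM0 : 0 ≤ Real.log M := Real.log_nonneg hM1
  have hmκ : (0 : ℝ) ≤ (m : ℝ) * κ := by positivity
  have hmγ : (0 : ℝ) ≤ (m : ℝ) * (2 + Real.log γ) := by positivity
  have hmM : (0 : ℝ) ≤ (m : ℝ) * κ * Real.log M := by positivity
  refine ⟨1 + m * κ + m * (2 + Real.log γ) + Real.log Δ + m * κ * Real.log M, by linarith, ?_⟩
  intro P D h hD hDh hPD hPl hPa hPs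
  set n := P.totalDegree with hn
  set K : ℝ := 1 + m * κ + m * (2 + Real.log γ) + Real.log Δ + m * κ * Real.log M with hK
  have hn0 : (0 : ℝ) ≤ n := Nat.cast_nonneg n
  have hdθ : aeval θ d ≠ 0 := hθ d hd
  set x : ℂ := aeval θ d ^ n * MvPolynomial.aeval a P with hx
  have hx0 : x ≠ 0 := mul_ne_zero (pow_ne_zero _ hdθ) hPa
  have hxn : ‖x‖ ≤ Real.exp (D * Real.log Δ) * ‖MvPolynomial.aeval a P‖ := by
    rw [hx, norm_mul, norm_pow]
    refine mul_le_mul_of_nonneg_right ?_ (norm_nonneg _)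
    calc ‖aeval θ d‖ ^ n ≤ Δ ^ n := pow_le_pow_left₀ (norm_nonneg _) (le_max_right _ _) _
      _ = Real.exp (n * Real.log Δ) := by
          rw [← Real.log_pow, Real.exp_log (by positivity)]
      _ ≤ Real.exp (D * Real.log Δ) := Real.exp_le_exp.2 (mul_le_mul_of_nonneg_right hPD hΔ0)
  have hx1 : ‖x‖ ≤ 1 := by
    refine hxn.trans ?_
    calc Real.exp (D * Real.log Δ) * ‖MvPolynomial.aeval a P‖ ≤ Real.exp (D * Real.log Δ) * Real.exp (-(K * D)) :=
          mul_le_mul_of_nonneg_left hPs (Real.exp_nonneg _)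
      _ = Real.exp (D * Real.log Δ - K * D) := by rw [← Real.exp_add]; congr 1
      _ ≤ 1 := by
          rw [Real.exp_le_one_iff]
          have : 0 ≤ (K - Real.log Δ) * D := by
            apply mul_nonneg _ (by linarith)
            rw [hK]
            linarith
          nlinarith
  -- the representation
  have hRx : Rep θ v (κ * n) (∑ k ∈ P.support, |((P.coeff k : ℤ) : ℝ)| * γ ^ n) x := by
    have e1 : x = ∑ k ∈ P.support, ((P.coeff k : ℤ) : ℂ) * (aeval θ d ^ (n - ∑ j, k j) *
        ∏ j, (aeval θ d * a j) ^ (k j)) := by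
      rw [hx, MvPolynomial.aeval_def, MvPolynomial.eval₂_eq', Finset.mul_sum]
      refine Finset.sum_congr rfl fun k hk => ?_
      have hkn : ∑ j, k j ≤ n := by
        have := MvPolynomial.le_totalDegree hk
        rwa [Finsupp.sum_fintype _ _ (fun _ => rfl)] at this
      have e2 : aeval θ d ^ n = aeval θ d ^ (n - ∑ j, k j) * ∏ j, (aeval θ d) ^ (k j) := by
        rw [Finset.prod_pow_eq_pow_sum, ← pow_add, Nat.sub_add_cancel hkn]
      have e3 : ∏ j, (aeval θ d * a j) ^ (k j) = (∏ j, (aeval θ d) ^ (k j)) * ∏ j, (a j) ^ (k j) := by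
        rw [← Finset.prod_mul_distrib]
        exact Finset.prod_congr rfl fun j _ => mul_pow _ _ _
      rw [e3, e2, algebraMap_int_eq, eq_intCast]
      ring
    rw [e1]
    refine Rep.sum _ _ _ _ fun k hk => ?_
    have hkn : ∑ j, k j ≤ n := by
      have := MvPolynomial.le_totalDegree hk
      rwa [Finsupp.sum_fintype _ _ (fun _ => rfl)] at this
    refine Rep.int_mul _ ?_
    have e4 := (hRd.pow (n - ∑ j, k j)).mul (Rep.prod_pow Finset.univ (fun j => aeval θ d * a j) (fun j => k j)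
      (fun j _ => hRa j))
    refine e4.mono ?_ ?_
    · rw [← Nat.mul_add, Nat.sub_add_cancel hkn]
    · rw [← pow_add, Nat.sub_add_cancel hkn]
  have hβ : ∑ k ∈ P.support, |((P.coeff k : ℤ) : ℝ)| * γ ^ n ≤ Real.exp (h + D * Real.log γ) := by
    rw [← Finset.sum_mul, Real.exp_add]
    refine mul_le_mul hPl ?_ (by positivity) (Real.exp_nonneg _)
    calc γ ^ n = Real.exp (n * Real.log γ) := by
          rw [← Real.log_pow, Real.exp_log (by positivity)]
      _ ≤ Real.exp (D * Real.log γ) := Real.exp_le_exp.2 (mul_le_mul_of_nonneg_right hPD hγ0)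
  have hRx' := hRx.mono le_rfl hβ
  obtain ⟨q, hq0, hqd, hql, hqs⟩ := hRx'.small hv hx0 hx1
  have hbase : (1 + Real.exp (h + D * Real.log γ)) ^ m ≤ Real.exp (m * (2 + Real.log γ) * h) := by
    have e5 : 1 + Real.exp (h + D * Real.log γ) ≤ Real.exp ((2 + Real.log γ) * h) := by
      have e6 : 0 ≤ h + D * Real.log γ := add_nonneg (by linarith) (mul_nonneg (by linarith) hγ0)
      have e7 : 1 ≤ Real.exp (h + D * Real.log γ) := Real.one_le_exp e6
      have e8 : (2 : ℝ) ≤ Real.exp 1 := by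
        have := Real.add_one_le_exp (1 : ℝ)
        linarith
      calc 1 + Real.exp (h + D * Real.log γ) ≤ 2 * Real.exp (h + D * Real.log γ) := by linarith
        _ ≤ Real.exp 1 * Real.exp (h + D * Real.log γ) := mul_le_mul_of_nonneg_right e8 (Real.exp_nonneg _)
        _ = Real.exp (1 + (h + D * Real.log γ)) := by rw [← Real.exp_add]
        _ ≤ Real.exp ((2 + Real.log γ) * h) := by
            apply Real.exp_le_exp.2
            have : D * Real.log γ ≤ h * Real.log γ := mul_le_mul_of_nonneg_right hDh hγ0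
            nlinarith
    calc (1 + Real.exp (h + D * Real.log γ)) ^ m ≤ Real.exp ((2 + Real.log γ) * h) ^ m :=
          pow_le_pow_left₀ (by positivity) e5 _
      _ = Real.exp (m * (2 + Real.log γ) * h) := by
          rw [← Real.exp_nat_mul]
          congr 1
          ring
  have hh0 : 0 ≤ h := by linarith
  refine ⟨q, hq0, ?_, ?_, ?_⟩
  · calc (q.natDegree : ℝ) ≤ ((m * (κ * n) : ℕ) : ℝ) := by exact_mod_cast hqd
      _ = m * κ * n := by push_cast; ring
      _ ≤ m * κ * D := mul_le_mul_of_nonneg_left hPD hmκ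
      _ ≤ K * D := by
          refine mul_le_mul_of_nonneg_right ?_ (by linarith)
          rw [hK]
          linarith
  · refine hql.trans (hbase.trans (Real.exp_le_exp.2 ?_))
    refine mul_le_mul_of_nonneg_right ?_ hh0
    rw [hK]
    linarith
  · calc ‖aeval θ q‖ ≤ ‖x‖ * ((1 + Real.exp (h + D * Real.log γ)) ^ m * M ^ (m * (κ * n))) := hqs
      _ ≤ (Real.exp (D * Real.log Δ) * ‖MvPolynomial.aeval a P‖) *
          (Real.exp (m * (2 + Real.log γ) * h) * Real.exp (m * κ * Real.log M * D)) := by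
          refine mul_le_mul hxn (mul_le_mul hbase ?_ (by positivity) (Real.exp_nonneg _)) (by positivity)
            (by positivity)
          calc M ^ (m * (κ * n)) = Real.exp (((m * (κ * n) : ℕ) : ℝ) * Real.log M) := by
                rw [← Real.log_pow, Real.exp_log (by positivity)]
            _ ≤ Real.exp (m * κ * Real.log M * D) := by
                apply Real.exp_le_exp.2
                push_cast
                have := mul_le_mul_of_nonneg_left hPD hmM
                linarith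
      _ = ‖MvPolynomial.aeval a P‖ * Real.exp (D * Real.log Δ + m * (2 + Real.log γ) * h +
          m * κ * Real.log M * D) := by
          rw [Real.exp_add, Real.exp_add]
          ring
      _ ≤ ‖MvPolynomial.aeval a P‖ * Real.exp (K * h) := by
          refine mul_le_mul_of_nonneg_left (Real.exp_le_exp.2 ?_) (norm_nonneg _)
          have e9 : D * Real.log Δ ≤ h * Real.log Δ := mul_le_mul_of_nonneg_right hDh hΔ0
          have e10 : m * κ * Real.log M * D ≤ m * κ * Real.log M * h := mul_le_mul_of_nonneg_left hDh hmM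
          have e11 : K * h = h + m * κ * h + m * (2 + Real.log γ) * h + Real.log Δ * h + m * κ * Real.log M * h := by
            rw [hK]
            ring
          have e12 : 0 ≤ m * κ * h := mul_nonneg hmκ hh0
          rw [e11]
          linarith

end Pool.Agent.CHG
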