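import Pool.Agent.CHG.Crit1
import Pool.Agent.CHG.Reduce
import Pool.Agent.ZCM.Defs

/-!
# Gelfond's criterion for finitely many pairwise dependent numbers

If any two of the complex numbers `a i` are algebraically dependent, then there is a constant `Ca`
such that for infinitely many `N` every integer polynomial `P` in the `a i` of total degree `≤ D N`
and length `≤ exp (h N)` with `|P(a)| ≤ exp (-Ca * D N * h N)` vanishes at `a`.
-/

set_option autoImplicit false

namespace Pool.Agent.CHG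

open Polynomial Finset Filter Topology

/-- the criterion over a transcendental `θ` -/
theorem crit_theta (θ : ℂ) (hθ : ∀ p : ℤ[X], p ≠ 0 → aeval θ p ≠ 0) {r : ℕ} (a : Fin r → ℂ)
    (ha : ∀ j, ∃ F : ℤ[X][X], F ≠ 0 ∧ F.eval₂ (aeval θ : ℤ[X] →ₐ[ℤ] ℂ).toRingHom (a j) = 0) :
    ∃ Ca : ℝ, 0 < Ca ∧ ∀ (D h : ℕ → ℝ) (N0 : ℕ), (∀ N ≥ N0, 1 ≤ D N ∧ D N ≤ h N ∧ D N ≤ D (N + 1) ∧
      D (N + 1) ≤ 2 * D N ∧ h N ≤ h (N + 1) ∧ h (N + 1) ≤ 2 * h N) → Tendsto h atTop atTop →
      ∃ N ≥ N0, ∀ P : MvPolynomial (Fin r) ℤ, (P.totalDegree : ℝ) ≤ D N →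
        (∑ k ∈ P.support, |((P.coeff k : ℤ) : ℝ)|) ≤ Real.exp (h N) →
        MvPolynomial.aeval a P = 0 ∨ Real.exp (-(Ca * D N * h N)) < ‖MvPolynomial.aeval a P‖ := by
  obtain ⟨K, hK, hred⟩ := reduce θ hθ a ha
  have hk := kap_pos θ
  refine ⟨(2 * kap θ + 1) * K ^ 2 + K, by positivity, ?_⟩
  intro D h N0 h1 hh
  by_contra hcon
  push Not at hcon
  refine crit1 θ hθ (fun N => K * D N) (fun N => K * h N) N0 ?_ (hh.const_mul_atTop (by linarith)) ?_
  · intro N hN
    obtain ⟨g1, g2, g3, g4, g5, g6⟩ := h1 N hN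
    refine ⟨by nlinarith, by nlinarith, by nlinarith, by nlinarith, by nlinarith, by nlinarith⟩
  · intro N hN
    obtain ⟨P, hP1, hP2, hP3, hP4⟩ := hcon N hN
    obtain ⟨g1, g2, g3, g4, g5, g6⟩ := h1 N hN
    have hDh : 1 ≤ D N * h N := by nlinarith
    have hle : K * D N ≤ ((2 * kap θ + 1) * K ^ 2 + K) * D N * h N := by
      have e1 : 0 ≤ (2 * kap θ + 1) * K ^ 2 * (D N * h N) := by positivity
      have e2 : K * D N ≤ K * (D N * h N) := by
        refine mul_le_mul_of_nonneg_left ?_ (by linarith)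
        nlinarith
      nlinarith
    obtain ⟨q, hq0, hqd, hql, hqs⟩ := hred P (D N) (h N) g1 g2 hP1 hP2 hP3
      (hP4.trans (Real.exp_le_exp.2 (by linarith)))
    refine ⟨q, hq0, hqd, hql, hqs.trans ?_⟩
    calc ‖MvPolynomial.aeval a P‖ * Real.exp (K * h N)
        ≤ Real.exp (-(((2 * kap θ + 1) * K ^ 2 + K) * D N * h N)) * Real.exp (K * h N) :=
          mul_le_mul_of_nonneg_right hP4 (Real.exp_nonneg _)
      _ = Real.exp (-(((2 * kap θ + 1) * K ^ 2 + K) * D N * h N) + K * h N) := by rw [← Real.exp_add]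
      _ ≤ Real.exp (-((2 * kap θ + 1) * (K * D N) * (K * h N))) := by
          apply Real.exp_le_exp.2
          have e3 : K * h N ≤ K * (D N * h N) := by
            refine mul_le_mul_of_nonneg_left ?_ (by linarith)
            nlinarith
          nlinarith

/-- from `ℚ` to `ℤ`: transcendental numbers -/
theorem transc_int {θ : ℂ} (h : Transcendental ℚ θ) : ∀ p : ℤ[X], p ≠ 0 → aeval θ p ≠ 0 := by
  intro p hp h0
  apply h
  refine ⟨p.map (algebraMap ℤ ℚ), ?_, ?_⟩
  · rwa [Ne, Polynomial.map_eq_zero_iff (algebraMap ℤ ℚ).injective_int]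
  · rw [aeval_map_algebraMap]
    exact h0

/-- dependence on a transcendental number -/
theorem dep_alg {x y : ℂ} (hy : Transcendental ℚ y) (h : ¬ AlgebraicIndependent ℚ ![x, y]) :
    IsAlgebraic (Algebra.adjoin ℚ ({y} : Set ℂ)) x := by
  by_contra hcon
  apply h
  rw [AlgebraicIndependent.iff_transcendental_adjoin_image (0 : Fin 2)]
  have h1 : (![x, y] '' {(0 : Fin 2)}ᶜ) = {y} := by
    ext v
    constructor
    · rintro ⟨i, hi, rfl⟩
      fin_cases i
      · simp at hi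
      · simp
    · rintro rfl
      exact ⟨1, by simp, rfl⟩
  rw [h1]
  refine ⟨?_, hcon⟩
  have : Subsingleton {j : Fin 2 // j ≠ 0} := ⟨by
    rintro ⟨i, hi⟩ ⟨j, hj⟩
    ext
    simp only
    omega⟩
  rw [algebraicIndependent_singleton_iff (⟨1, by simp⟩ : {j : Fin 2 // j ≠ 0})]
  exact hy

/-- a number algebraic over `ℚ(θ)` is a root of a nonzero polynomial with coefficients in `ℤ[θ]` -/
theorem alg_poly {θ x : ℂ} (hθ : Transcendental ℚ θ) (h : IsAlgebraic (Algebra.adjoin ℚ ({θ} : Set ℂ)) x) :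
    ∃ F : ℤ[X][X], F ≠ 0 ∧ F.eval₂ (aeval θ : ℤ[X] →ₐ[ℤ] ℂ).toRingHom x = 0 := by
  let A := Algebra.adjoin ℚ ({θ} : Set ℂ)
  let t : A := ⟨θ, Algebra.subset_adjoin rfl⟩
  let _ : Algebra ℤ[X] ℂ := algθ θ
  let _ : Algebra ℤ[X] A := (aeval t : ℤ[X] →ₐ[ℤ] A).toRingHom.toAlgebra
  have htow : IsScalarTower ℤ[X] A ℂ := by
    refine IsScalarTower.of_algebraMap_eq fun p => ?_
    change aeval θ p = algebraMap A ℂ (aeval t p)
    rw [← Polynomial.aeval_algebraMap_apply]
    rfl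
  have hinj : Function.Injective (algebraMap ℤ[X] A) := by
    rw [injective_iff_map_eq_zero]
    intro p hp
    by_contra hp0
    apply transc_int hθ p hp0
    have h1 : algebraMap A ℂ (algebraMap ℤ[X] A p) = 0 := by rw [hp, map_zero]
    rw [← IsScalarTower.algebraMap_apply] at h1
    exact h1
  have halg : Algebra.IsAlgebraic ℤ[X] A := by
    refine ⟨fun z => ?_⟩
    obtain ⟨z, hz⟩ := z
    have hz' : z ∈ (aeval θ : ℚ[X] →ₐ[ℚ] ℂ).range := by
      rw [← Algebra.adjoin_singleton_eq_range_aeval]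
      exact hz
    obtain ⟨p, hp⟩ := hz'
    obtain ⟨b, hb, hq⟩ := IsLocalization.integerNormalization_spec (nonZeroDivisors ℤ) p
    set q := IsLocalization.integerNormalization (nonZeroDivisors ℤ) p with hqdef
    have hb0 : b ≠ 0 := nonZeroDivisors.ne_zero hb
    refine ⟨C (C b) * X - C q, ?_, ?_⟩
    · intro h0
      have h1 := congrArg (fun f : ℤ[X][X] => f.coeff 1) h0
      simp only [coeff_sub, coeff_C_mul, coeff_X_one, mul_one, coeff_zero] at h1
      rw [coeff_C_succ, sub_zero] at h1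
      exact hb0 (by simpa using h1)
    · rw [map_sub, map_mul, aeval_C, aeval_C, aeval_X, sub_eq_zero]
      apply Subtype.ext
      have e1 : ((algebraMap ℤ[X] A (C b) : A) : ℂ) = (b : ℂ) := by
        change algebraMap A ℂ (algebraMap ℤ[X] A (C b)) = _
        rw [← IsScalarTower.algebraMap_apply]
        change aeval θ (C b) = _
        simp
      have e2 : ((algebraMap ℤ[X] A q : A) : ℂ) = aeval θ q := by
        change algebraMap A ℂ (algebraMap ℤ[X] A q) = _
        rw [← IsScalarTower.algebraMap_apply]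
        rfl
      have e3 : aeval θ q = (b : ℂ) * aeval θ p := by
        have h2 : aeval θ (q.map (algebraMap ℤ ℚ)) = aeval θ q := aeval_map_algebraMap ℚ θ q
        rw [← h2, hq, map_zsmul, zsmul_eq_mul]
      rw [Subalgebra.coe_mul, e1, e2, e3]
      congr 1
      exact hp.symm
  have hx : IsAlgebraic ℤ[X] x := by
    have : IsAlgebraic A x := h
    exact this.restrictScalars ℤ[X]
  obtain ⟨F, hF, h0⟩ := hx
  exact ⟨F, hF, by rw [aeval_def] at h0; exact h0⟩

/-- **Gelfond's criterion**, general sequences. -/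
theorem crit_gen {r : ℕ} (a : Fin r → ℂ) (h1 : ∀ i j, ¬ AlgebraicIndependent ℚ ![a i, a j]) :
    ∃ Ca : ℝ, 0 < Ca ∧ ∀ (D h : ℕ → ℝ) (N0 : ℕ), (∀ N ≥ N0, 1 ≤ D N ∧ D N ≤ h N ∧ D N ≤ D (N + 1) ∧
      D (N + 1) ≤ 2 * D N ∧ h N ≤ h (N + 1) ∧ h (N + 1) ≤ 2 * h N) → Tendsto h atTop atTop →
      ∃ N ≥ N0, ∀ P : MvPolynomial (Fin r) ℤ, (P.totalDegree : ℝ) ≤ D N →
        (∑ k ∈ P.support, |((P.coeff k : ℤ) : ℝ)|) ≤ Real.exp (h N) →
        MvPolynomial.aeval a P = 0 ∨ Real.exp (-(Ca * D N * h N)) < ‖MvPolynomial.aeval a P‖ := by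
  by_cases hex : ∃ i, Transcendental ℚ (a i)
  · obtain ⟨i, hi⟩ := hex
    exact crit_theta (a i) (transc_int hi) a fun j => alg_poly hi (dep_alg hi (h1 j i))
  · push Not at hex
    have hL : Transcendental ℚ ((liouvilleNumber 2 : ℝ) : ℂ) := by
      have h2 : Transcendental ℤ (liouvilleNumber ((2 : ℕ) : ℝ)) := transcendental_liouvilleNumber le_rfl
      have h3 : Transcendental ℚ (liouvilleNumber ((2 : ℕ) : ℝ)) := fun h =>
        h2 ((IsFractionRing.isAlgebraic_iff ℤ ℚ ℝ).2 h)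
      intro h4
      apply h3
      have h5 : IsAlgebraic ℚ (algebraMap ℝ ℂ (liouvilleNumber (2 : ℝ))) := h4
      rw [isAlgebraic_algebraMap_iff (algebraMap ℝ ℂ).injective] at h5
      exact_mod_cast h5
    refine crit_theta _ (transc_int hL) a fun j => alg_poly hL ?_
    have h3 : IsAlgebraic ℚ (a j) := by
      have := hex j
      rwa [Transcendental, not_not] at this
    exact h3.extendScalars (FaithfulSMul.algebraMap_injective ℚ _)

/-- **Gelfond's criterion** in the form used for Chudnovsky's theorem. -/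
theorem crit {r : ℕ} (a : Fin r → ℂ) (h1 : ∀ i j, ¬ AlgebraicIndependent ℚ ![a i, a j]) :
    ∃ Ca : ℝ, 0 < Ca ∧ ∀ A B : ℝ, 1 ≤ A → 1 ≤ B → ∀ N0 : ℕ, ∃ N ≥ N0, ∀ P : MvPolynomial (Fin r) ℤ,
      (P.totalDegree : ℝ) ≤ A * N →
      Pool.Agent.ZCM.nm (MvPolynomial.map (Int.castRingHom ℂ) P) ≤ Real.exp (B * N * Real.log N) →
      MvPolynomial.aeval a P = 0 ∨
        Real.exp (-(Ca * A * B * N ^ 2 * Real.log N)) < ‖MvPolynomial.aeval a P‖ := by
  obtain ⟨Ca, hCa, h2⟩ := crit_gen a h1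
  refine ⟨Ca, hCa, ?_⟩
  intro A B hA hB N0
  set N1 : ℕ := max (max N0 3) ⌈Real.exp A⌉₊ with hN1
  have hbase : ∀ N : ℕ, N ≥ N1 → (3 : ℝ) ≤ N ∧ A ≤ Real.log N := by
    intro N hN
    have e1 : 3 ≤ N := le_trans (le_trans (le_max_right _ _) (le_max_left _ _)) hN
    have e2 : ⌈Real.exp A⌉₊ ≤ N := le_trans (le_max_right _ _) hN
    refine ⟨by exact_mod_cast e1, ?_⟩
    rw [Real.le_log_iff_exp_le (by positivity)]
    exact (Nat.le_ceil _).trans (by exact_mod_cast e2)
  have hlogtwo : ∀ N : ℕ, (3 : ℝ) ≤ N → Real.log ((N : ℝ) + 1) ≤ 3 / 2 * Real.log N := by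
    intro N hN
    have e3 : ((N : ℝ) + 1) ^ 2 ≤ (N : ℝ) ^ 3 := by nlinarith
    have e4 := Real.log_le_log (by positivity) e3
    rw [Real.log_pow, Real.log_pow] at e4
    push_cast at e4
    linarith
  obtain ⟨N, hN, hP⟩ := h2 (fun N => A * N) (fun N => B * N * Real.log N) N1 (by
    intro N hN
    obtain ⟨e1, e2⟩ := hbase N hN
    have e3 := hlogtwo N e1
    have e4 : Real.log N ≤ Real.log ((N : ℝ) + 1) := Real.log_le_log (by linarith) (by linarith)
    have e5 : 1 ≤ Real.log N := hA.trans e2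
    have e6 : 0 ≤ B * N := by positivity
    push_cast
    refine ⟨by nlinarith, ?_, by nlinarith, by nlinarith, ?_, ?_⟩
    · have : A * N ≤ Real.log N * N := mul_le_mul_of_nonneg_right e2 (by linarith)
      have h7 : 0 ≤ Real.log N * N := by positivity
      nlinarith
    · have h7 : B * (N : ℝ) ≤ B * ((N : ℝ) + 1) := by nlinarith
      exact mul_le_mul h7 e4 (by linarith) (by positivity)
    · have h7 : B * ((N : ℝ) + 1) ≤ 4 / 3 * (B * N) := by nlinarith
      calc B * ((N : ℝ) + 1) * Real.log ((N : ℝ) + 1) ≤ 4 / 3 * (B * N) * (3 / 2 * Real.log N) :=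
            mul_le_mul h7 e3 (by linarith) (by positivity)
        _ = 2 * (B * N * Real.log N) := by ring) (by
    have t1 : Tendsto (fun N : ℕ => (N : ℝ)) atTop atTop := tendsto_natCast_atTop_atTop
    have t2 : Tendsto (fun N : ℕ => Real.log (N : ℝ)) atTop atTop := Real.tendsto_log_atTop.comp t1
    exact (t1.const_mul_atTop (by linarith : (0 : ℝ) < B)).atTop_mul_atTop₀ t2)
  refine ⟨N, le_trans (le_trans (le_max_left _ _) (le_max_left _ _)) hN, ?_⟩
  intro P hPd hPn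
  have hnm : Pool.Agent.ZCM.nm (MvPolynomial.map (Int.castRingHom ℂ) P) =
      ∑ k ∈ P.support, |((P.coeff k : ℤ) : ℝ)| := by
    unfold Pool.Agent.ZCM.nm
    rw [MvPolynomial.support_map_of_injective _ (Int.castRingHom ℂ).injective_int]
    refine Finset.sum_congr rfl fun k _ => ?_
    rw [MvPolynomial.coeff_map, eq_intCast, Complex.norm_intCast]
  rw [hnm] at hPn
  rcases hP P hPd hPn with h | h
  · exact Or.inl h
  · right
    refine lt_of_le_of_lt (le_of_eq ?_) h
    congr 1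
    ring

end Pool.Agent.CHG
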