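import Pool.Agent.CHG.One
import Pool.Agent.ZCM.GelRes
import Pool.Agent.ZCM.GelHt

/-! # Gelfond's criterion in one variable, growing degrees -/

set_option autoImplicit false

namespace Pool.Agent.CHG

open Polynomial Finset Filter

/-- logarithm of the Mahler measure of an integer polynomial -/
noncomputable def lm (p : ℤ[X]) : ℝ := Real.log (p.map (Int.castRingHom ℂ)).mahlerMeasure

theorem lm_nonneg {p : ℤ[X]} (hp : p ≠ 0) : 0 ≤ lm p :=
  Real.log_nonneg (one_le_mahlerMeasure_of_ne_zero hp)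

theorem lm_mul {p q : ℤ[X]} (hp : p ≠ 0) (hq : q ≠ 0) : lm (p * q) = lm p + lm q := by
  unfold lm
  rw [Polynomial.map_mul, mahlerMeasure_mul, Real.log_mul]
  · exact (lt_of_lt_of_le one_pos (one_le_mahlerMeasure_of_ne_zero hp)).ne'
  · exact (lt_of_lt_of_le one_pos (one_le_mahlerMeasure_of_ne_zero hq)).ne'

theorem l1_eq_nm1 (p : ℤ[X]) : l1 p = Pool.Agent.ZCM.nm1 (p.map (Int.castRingHom ℂ)) := by
  rw [Pool.Agent.ZCM.GelHt_nm1_eq, l1,
    natDegree_map_eq_of_injective (Int.castRingHom ℂ).injective_int]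
  refine Finset.sum_congr rfl fun i _ => ?_
  rw [coeff_map, eq_intCast, Complex.norm_intCast]

theorem log_l1_le {p : ℤ[X]} (hp : p ≠ 0) : Real.log (l1 p) ≤ p.natDegree * Real.log 2 + lm p := by
  have h1 := Pool.Agent.ZCM.GelHt_le_mahler (p.map (Int.castRingHom ℂ))
  rw [← l1_eq_nm1, natDegree_map_eq_of_injective (Int.castRingHom ℂ).injective_int] at h1
  have h2 : (0 : ℝ) < l1 p := lt_of_lt_of_le one_pos (one_le_l1 hp)
  have h3 : (0 : ℝ) < (p.map (Int.castRingHom ℂ)).mahlerMeasure :=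
    lt_of_lt_of_le one_pos (one_le_mahlerMeasure_of_ne_zero hp)
  have h4 := Real.log_le_log h2 h1
  rwa [Real.log_mul (by positivity) h3.ne', Real.log_pow] at h4

theorem lm_le_log {p : ℤ[X]} (hp : p ≠ 0) : lm p ≤ Real.log (l1 p) := by
  have h1 := Pool.Agent.ZCM.GelHt_mahler_le (p.map (Int.castRingHom ℂ))
  rw [← l1_eq_nm1] at h1
  exact Real.log_le_log (lt_of_lt_of_le one_pos (one_le_mahlerMeasure_of_ne_zero hp)) h1

theorem exists_irr (Φ : ℤ[X] → ℝ) (hmul : ∀ p q : ℤ[X], p ≠ 0 → q ≠ 0 → Φ (p * q) = Φ p + Φ q)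
    (hunit : ∀ u : ℤ[X], IsUnit u → 0 ≤ Φ u) (P : ℤ[X]) (hP : P ≠ 0) (h : Φ P < 0) :
    ∃ Q : ℤ[X], Irreducible Q ∧ Q ∣ P ∧ Φ Q < 0 := by
  revert hP h
  refine WfDvdMonoid.induction_on_irreducible P ?_ ?_ ?_
  · intro h0
    exact absurd rfl h0
  · intro u hu _ h
    exact absurd h (not_lt.2 (hunit u hu))
  · intro a i ha hi ih _ h
    rw [hmul i a hi.ne_zero ha] at h
    by_cases h1 : Φ i < 0
    · exact ⟨i, hi, dvd_mul_right _ _, h1⟩
    · obtain ⟨Q, hQ, hd, hlt⟩ := ih ha (by linarith)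
      exact ⟨Q, hQ, hd.trans (dvd_mul_left _ _), hlt⟩

/-- the constant of one step -/
noncomputable def kap (θ : ℂ) : ℝ := 3 * Real.log (2 * max 1 ‖θ‖) + 6

theorem tau_pos (θ : ℂ) : 0 < Real.log (2 * max 1 ‖θ‖) := by
  apply Real.log_pos
  have : (1 : ℝ) ≤ max 1 ‖θ‖ := le_max_left _ _
  linarith

theorem kap_pos (θ : ℂ) : 0 < kap θ := by
  have := tau_pos θ
  unfold kap
  linarith

theorem one_step (θ : ℂ) (D h D' h' : ℝ) (h1 : 1 ≤ D) (h2 : D ≤ h) (h3 : D ≤ D') (h4 : D' ≤ 2 * D)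
    (h5 : h ≤ h') (h6 : h' ≤ 2 * h) (Q Q' : ℤ[X]) (hQ : Irreducible Q) (hQ' : Irreducible Q')
    (hd : 1 ≤ Q.natDegree) (hd' : 1 ≤ Q'.natDegree) (hD : (Q.natDegree : ℝ) ≤ D)
    (hD' : (Q'.natDegree : ℝ) ≤ D') (hm : lm Q ≤ h) (hm' : lm Q' ≤ h')
    (hs : Real.log ‖aeval θ Q‖ < -(kap θ * (h * Q.natDegree + D * lm Q)))
    (hs' : Real.log ‖aeval θ Q'‖ < -(kap θ * (h' * Q'.natDegree + D' * lm Q'))) : Associated Q Q' := by
  by_contra hna
  have hrel : IsRelPrime Q Q' := by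
    refine (hQ.isRelPrime_iff_not_dvd).2 fun hdv => hna ?_
    exact (hQ.associated_of_dvd hQ' hdv)
  have hres := Pool.Agent.ZCM.GelRes_res_ne_zero Q Q' hQ.ne_zero hrel
  have hb := res_bound θ Q Q' hQ.ne_zero hQ'.ne_zero (by omega) hres
  set m := Q.natDegree with hmdef
  set n := Q'.natDegree with hndef
  have hm1 : (1 : ℝ) ≤ m := by exact_mod_cast hd
  have hn1 : (1 : ℝ) ≤ n := by exact_mod_cast hd'
  set τ := Real.log (2 * max 1 ‖θ‖) with hτ
  have hτ0 : 0 < τ := tau_pos θ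
  have hM : (0 : ℝ) < 2 * max 1 ‖θ‖ := by
    have : (1 : ℝ) ≤ max 1 ‖θ‖ := le_max_left _ _
    linarith
  have hl : (0 : ℝ) < l1 Q := lt_of_lt_of_le one_pos (one_le_l1 hQ.ne_zero)
  have hl' : (0 : ℝ) < l1 Q' := lt_of_lt_of_le one_pos (one_le_l1 hQ'.ne_zero)
  set δ := max ‖aeval θ Q‖ ‖aeval θ Q'‖ with hδ
  have hδ0 : 0 < δ := by
    by_contra hcon
    have : δ = 0 := le_antisymm (not_lt.1 hcon) ((norm_nonneg _).trans (le_max_left _ _))
    rw [this, mul_zero] at hb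
    linarith
  have hlog := Real.log_le_log one_pos hb
  rw [Real.log_one, Real.log_mul (by positivity) hδ0.ne', Real.log_mul (by positivity) (by positivity),
    Real.log_mul (by positivity) (by positivity), Real.log_pow, Real.log_pow, Real.log_pow, ← hτ] at hlog
  push_cast at hlog
  have hL := log_l1_le hQ.ne_zero
  have hL' := log_l1_le hQ'.ne_zero
  rw [← hmdef] at hL
  rw [← hndef] at hL'
  have hlog2 : Real.log 2 ≤ 1 := by
    have := Real.log_two_lt_d9
    linarith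
  have hlog20 : 0 ≤ Real.log 2 := Real.log_nonneg (by norm_num)
  have hlm0 := lm_nonneg hQ.ne_zero
  have hlm0' := lm_nonneg hQ'.ne_zero
  have e1 : (m : ℝ) * Real.log (l1 Q') ≤ m * (n + lm Q') := by
    refine mul_le_mul_of_nonneg_left (hL'.trans ?_) (by linarith)
    have : (n : ℝ) * Real.log 2 ≤ n * 1 := mul_le_mul_of_nonneg_left hlog2 (by linarith)
    linarith
  have e2 : (n : ℝ) * Real.log (l1 Q) ≤ n * (m + lm Q) := by
    refine mul_le_mul_of_nonneg_left (hL.trans ?_) (by linarith)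
    have : (m : ℝ) * Real.log 2 ≤ m * 1 := mul_le_mul_of_nonneg_left hlog2 (by linarith)
    linarith
  have hkey : 0 ≤ (m + n) * τ + (2 * (m * n) + m * lm Q' + n * lm Q) + Real.log δ := by
    linarith [e1, e2, hlog]
  have hm0 : (0 : ℝ) ≤ m := by linarith
  have hn0 : (0 : ℝ) ≤ n := by linarith
  rcases le_total ‖aeval θ Q‖ ‖aeval θ Q'‖ with hle | hle
  · have hδ' : δ = ‖aeval θ Q'‖ := max_eq_right hle
    rw [hδ'] at hkey
    have hs2 : (m + n) * τ + (2 * (m * n) + m * lm Q' + n * lm Q) ≤ kap θ * (h' * n + D' * lm Q') := by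
      have a0 : 0 ≤ h' := by linarith
      have a1 : (m : ℝ) ≤ h' := by linarith
      have a8 : 0 ≤ h' * n := mul_nonneg a0 hn0
      have a2 : (m : ℝ) ≤ h' * n := a1.trans (le_mul_of_one_le_right a0 hn1)
      have a3 : (n : ℝ) ≤ h' * n := le_mul_of_one_le_left hn0 (by linarith)
      have a4 : (m + n) * τ ≤ 2 * (h' * n) * τ := mul_le_mul_of_nonneg_right (by linarith) hτ0.le
      have a5 : (m : ℝ) * n ≤ h' * n := mul_le_mul_of_nonneg_right a1 hn0
      have a6 : m * lm Q' ≤ D' * lm Q' := mul_le_mul_of_nonneg_right (by linarith) hlm0'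
      have a7 : n * lm Q ≤ n * h' := mul_le_mul_of_nonneg_left (by linarith) hn0
      have a9 : 0 ≤ D' * lm Q' := mul_nonneg (by linarith) hlm0'
      have a10 := mul_nonneg a8 hτ0.le
      have a11 := mul_nonneg a9 hτ0.le
      have a12 : kap θ * (h' * n + D' * lm Q') = 3 * (h' * n * τ) + 3 * (D' * lm Q' * τ) + 6 * (h' * n) +
          6 * (D' * lm Q') := by
        unfold kap
        rw [← hτ]
        ring
      rw [a12]
      linarith
    linarith
  · have hδ' : δ = ‖aeval θ Q‖ := max_eq_left hle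
    rw [hδ'] at hkey
    have hs2 : (m + n) * τ + (2 * (m * n) + m * lm Q' + n * lm Q) ≤ kap θ * (h * m + D * lm Q) := by
      have b0 : 0 ≤ h := by linarith
      have a0 : (n : ℝ) ≤ 2 * h := by linarith
      have a8 : 0 ≤ h * m := mul_nonneg b0 hm0
      have b1 : h ≤ h * m := le_mul_of_one_le_right b0 hm1
      have a1 : (n : ℝ) ≤ 2 * (h * m) := by linarith
      have a3 : (m : ℝ) ≤ h * m := le_mul_of_one_le_left hm0 (by linarith)
      have a4 : (m + n) * τ ≤ 3 * (h * m) * τ := mul_le_mul_of_nonneg_right (by linarith) hτ0.le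
      have a5 : (m : ℝ) * n ≤ m * (2 * h) := mul_le_mul_of_nonneg_left a0 hm0
      have a6 : n * lm Q ≤ (2 * D) * lm Q := mul_le_mul_of_nonneg_right (by linarith) hlm0
      have a7 : m * lm Q' ≤ m * (2 * h) := mul_le_mul_of_nonneg_left (by linarith) hm0
      have a9 : 0 ≤ D * lm Q := mul_nonneg (by linarith) hlm0
      have a10 := mul_nonneg a8 hτ0.le
      have a11 := mul_nonneg a9 hτ0.le
      have a12 : kap θ * (h * m + D * lm Q) = 3 * (h * m * τ) + 3 * (D * lm Q * τ) + 6 * (h * m) +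
          6 * (D * lm Q) := by
        unfold kap
        rw [← hτ]
        ring
      rw [a12]
      linarith
    linarith

/-- Gelfond's criterion in one variable: the constant depends on `θ` only. -/
theorem crit1 (θ : ℂ) (hθ : ∀ p : ℤ[X], p ≠ 0 → aeval θ p ≠ 0) (D h : ℕ → ℝ) (N0 : ℕ)
    (h1 : ∀ N ≥ N0, 1 ≤ D N ∧ D N ≤ h N ∧ D N ≤ D (N + 1) ∧ D (N + 1) ≤ 2 * D N ∧
      h N ≤ h (N + 1) ∧ h (N + 1) ≤ 2 * h N)
    (hh : Tendsto h atTop atTop)
    (hP : ∀ N ≥ N0, ∃ P : ℤ[X], P ≠ 0 ∧ (P.natDegree : ℝ) ≤ D N ∧ l1 P ≤ Real.exp (h N) ∧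
      ‖aeval θ P‖ ≤ Real.exp (-((2 * kap θ + 1) * D N * h N))) : False := by
  have hk := kap_pos θ
  have hQ : ∀ N ≥ N0, ∃ Q : ℤ[X], Irreducible Q ∧ 1 ≤ Q.natDegree ∧ (Q.natDegree : ℝ) ≤ D N ∧
      lm Q ≤ h N ∧ Real.log ‖aeval θ Q‖ < -(kap θ * (h N * Q.natDegree + D N * lm Q)) := by
    intro N hN
    obtain ⟨P, hP0, hPd, hPl, hPs⟩ := hP N hN
    obtain ⟨g1, g2, g3, g4, g5, g6⟩ := h1 N hN
    have hh0 : 0 < h N := by linarith
    have hpn : 0 < ‖aeval θ P‖ := norm_pos_iff.2 (hθ P hP0)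
    have hlog : Real.log ‖aeval θ P‖ ≤ -((2 * kap θ + 1) * D N * h N) := by
      rw [← Real.log_exp (-((2 * kap θ + 1) * D N * h N))]
      exact Real.log_le_log hpn hPs
    have hlmP : lm P ≤ h N := by
      refine (lm_le_log hP0).trans ?_
      rw [← Real.log_exp (h N)]
      exact Real.log_le_log (lt_of_lt_of_le one_pos (one_le_l1 hP0)) hPl
    set Φ : ℤ[X] → ℝ := fun p => Real.log ‖aeval θ p‖ + kap θ * (h N * p.natDegree + D N * lm p) with hΦ
    have hΦmul : ∀ p q : ℤ[X], p ≠ 0 → q ≠ 0 → Φ (p * q) = Φ p + Φ q := by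
      intro p q hp hq
      simp only [hΦ]
      rw [map_mul, norm_mul, Real.log_mul (norm_ne_zero_iff.2 (hθ p hp)) (norm_ne_zero_iff.2 (hθ q hq)),
        lm_mul hp hq, natDegree_mul hp hq]
      push_cast
      ring
    have hconst : ∀ p : ℤ[X], p ≠ 0 → p.natDegree = 0 → 0 ≤ Φ p := by
      intro p hp hd
      simp only [hΦ]
      have hpc := eq_C_of_natDegree_eq_zero hd
      have h1 : 0 ≤ Real.log ‖aeval θ p‖ := by
        rw [hpc, aeval_C]
        apply Real.log_nonneg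
        rw [algebraMap_int_eq, eq_intCast, Complex.norm_intCast]
        have : p.coeff 0 ≠ 0 := by
          intro h0
          apply hp
          rw [hpc, h0, map_zero]
        exact_mod_cast Int.one_le_abs this
      rw [hd]
      have h2 := lm_nonneg hp
      have h3 : 0 ≤ D N * lm p := mul_nonneg (by linarith) h2
      have h4 : 0 ≤ kap θ * (h N * ((0 : ℕ) : ℝ) + D N * lm p) := by
        apply mul_nonneg hk.le
        simpa using h3
      linarith
    have hΦP : Φ P < 0 := by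
      simp only [hΦ]
      have h2 : kap θ * (h N * P.natDegree + D N * lm P) ≤ kap θ * (h N * D N + D N * h N) := by
        refine mul_le_mul_of_nonneg_left ?_ hk.le
        have := mul_le_mul_of_nonneg_left hPd hh0.le
        have := mul_le_mul_of_nonneg_left hlmP (by linarith : (0 : ℝ) ≤ D N)
        linarith
      have h3 : 0 < D N * h N := mul_pos (by linarith) hh0
      nlinarith
    obtain ⟨Q, hQi, hQd, hQΦ⟩ := exists_irr Φ hΦmul
      (fun u hu => hconst u hu.ne_zero (natDegree_eq_zero_of_isUnit hu)) P hP0 hΦP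
    refine ⟨Q, hQi, ?_, ?_, ?_, ?_⟩
    · by_contra hcon
      exact absurd hQΦ (not_lt.2 (hconst Q hQi.ne_zero (by omega)))
    · refine le_trans ?_ hPd
      exact_mod_cast natDegree_le_of_dvd hQd hP0
    · obtain ⟨R, hR⟩ := hQd
      have hR0 : R ≠ 0 := by
        rintro rfl
        rw [mul_zero] at hR
        exact hP0 hR
      rw [hR, lm_mul hQi.ne_zero hR0] at hlmP
      have := lm_nonneg hR0
      linarith
    · simp only [hΦ] at hQΦ
      linarith
  choose! Q hQi hQd hQD hQm hQs using hQ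
  have hassoc : ∀ k : ℕ, Associated (Q N0) (Q (N0 + k)) := by
    intro k
    induction k with
    | zero => exact Associated.refl _
    | succ k ih =>
      refine ih.trans ?_
      have hN : N0 + k ≥ N0 := by omega
      have hN' : N0 + k + 1 ≥ N0 := by omega
      obtain ⟨g1, g2, g3, g4, g5, g6⟩ := h1 _ hN
      exact one_step θ (D (N0 + k)) (h (N0 + k)) (D (N0 + k + 1)) (h (N0 + k + 1)) g1 g2 g3 g4 g5 g6
        _ _ (hQi _ hN) (hQi _ hN') (hQd _ hN) (hQd _ hN') (hQD _ hN) (hQD _ hN') (hQm _ hN)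
        (hQm _ hN') (hQs _ hN) (hQs _ hN')
  have hnorm : ∀ k : ℕ, ‖aeval θ (Q (N0 + k))‖ = ‖aeval θ (Q N0)‖ := by
    intro k
    obtain ⟨u, hu⟩ := hassoc k
    rw [← hu, map_mul, norm_mul]
    obtain ⟨c, hc, hcu⟩ := Polynomial.isUnit_iff.1 u.isUnit
    rw [← hcu, aeval_C, algebraMap_int_eq, eq_intCast, Complex.norm_intCast]
    rcases Int.isUnit_iff.1 hc with h | h <;> simp [h]
  have hlt : ∀ k : ℕ, kap θ * h (N0 + k) < -Real.log ‖aeval θ (Q N0)‖ := by
    intro k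
    have hN : N0 + k ≥ N0 := by omega
    have h2 := hQs _ hN
    rw [hnorm k] at h2
    obtain ⟨g1, g2, -⟩ := h1 _ hN
    have h3 : (1 : ℝ) ≤ (Q (N0 + k)).natDegree := by exact_mod_cast hQd _ hN
    have h4 := lm_nonneg (hQi _ hN).ne_zero
    have h5 : h (N0 + k) ≤ h (N0 + k) * (Q (N0 + k)).natDegree + D (N0 + k) * lm (Q (N0 + k)) := by
      have := mul_nonneg (by linarith : (0 : ℝ) ≤ D (N0 + k)) h4
      have := mul_le_mul_of_nonneg_left h3 (by linarith : (0 : ℝ) ≤ h (N0 + k))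
      linarith
    have h6 := mul_le_mul_of_nonneg_left h5 hk.le
    linarith
  obtain ⟨K, hK⟩ := (hh.eventually_gt_atTop (-Real.log ‖aeval θ (Q N0)‖ / kap θ)).exists_forall_of_atTop
  have h7 := hK (N0 + K) (by omega)
  rw [div_lt_iff₀ hk] at h7
  have h8 := hlt K
  linarith

end Pool.Agent.CHG
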