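import Mathlib

/-!
# Gelfond's transcendence criterion in one variable

For a transcendental complex number `θ` there is no sequence of integer polynomials `P_N` of degree
at most `D N` and length at most `exp (h N)` with `0 < |P_N(θ)| ≤ exp (-c * D N * h N)`, where `c`
depends only on `|θ|` and `D`, `h` at most double from `N` to `N + 1`, `1 ≤ D ≤ h`, `h → ∞`.
-/

set_option autoImplicit false

namespace Pool.Agent.CHG

open Polynomial Finset

/-- the length of an integer polynomial -/
noncomputable def l1 (p : ℤ[X]) : ℝ := ∑ i ∈ Finset.range (p.natDegree + 1), |(p.coeff i : ℝ)|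

theorem l1_eq (p : ℤ[X]) {n : ℕ} (hn : p.natDegree < n) :
    l1 p = ∑ i ∈ Finset.range n, |(p.coeff i : ℝ)| := by
  unfold l1
  refine Finset.sum_subset ?_ ?_
  · intro x hx
    simp only [Finset.mem_range] at *
    omega
  · intro x _ hx
    simp only [Finset.mem_range, not_lt] at hx
    rw [Polynomial.coeff_eq_zero_of_natDegree_lt (by omega)]
    simp

theorem l1_nonneg (p : ℤ[X]) : 0 ≤ l1 p := Finset.sum_nonneg fun _ _ => abs_nonneg _

theorem one_le_l1 {p : ℤ[X]} (hp : p ≠ 0) : 1 ≤ l1 p := by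
  unfold l1
  have h1 : (1 : ℝ) ≤ |(p.coeff p.natDegree : ℝ)| := by
    have : (1 : ℤ) ≤ |p.coeff p.natDegree| :=
      Int.one_le_abs (by simpa using hp)
    exact_mod_cast this
  refine h1.trans ?_
  exact Finset.single_le_sum (f := fun i => |(p.coeff i : ℝ)|) (fun _ _ => abs_nonneg _)
    (Finset.mem_range.2 (Nat.lt_succ_self _))

theorem l1_zero : l1 0 = 0 := by simp [l1]

theorem l1_add (p q : ℤ[X]) : l1 (p + q) ≤ l1 p + l1 q := by
  set n := max p.natDegree q.natDegree + 1 with hn
  have h1 : (p + q).natDegree < n := by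
    have := Polynomial.natDegree_add_le p q
    omega
  rw [l1_eq _ h1, l1_eq p (n := n) (by omega), l1_eq q (n := n) (by omega),
    ← Finset.sum_add_distrib]
  refine Finset.sum_le_sum fun i _ => ?_
  rw [Polynomial.coeff_add]
  push_cast
  exact abs_add_le _ _

theorem l1_sum {ι : Type*} (s : Finset ι) (f : ι → ℤ[X]) : l1 (∑ i ∈ s, f i) ≤ ∑ i ∈ s, l1 (f i) := by
  classical
  induction s using Finset.induction_on with
  | empty => simp [l1_zero]
  | insert a s ha ih =>
    rw [Finset.sum_insert ha, Finset.sum_insert ha]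
    exact (l1_add _ _).trans (by linarith)

theorem l1_neg (p : ℤ[X]) : l1 (-p) = l1 p := by
  simp [l1]

theorem l1_C_mul (a : ℤ) (p : ℤ[X]) : l1 (C a * p) ≤ |(a : ℝ)| * l1 p := by
  rw [l1_eq (C a * p) (n := p.natDegree + 1) (by
    have := Polynomial.natDegree_C_mul_le a p
    omega), l1, Finset.mul_sum]
  refine Finset.sum_le_sum fun i _ => ?_
  rw [Polynomial.coeff_C_mul]
  push_cast
  rw [abs_mul]

theorem l1_C (a : ℤ) : l1 (C a) = |(a : ℝ)| := by
  simp [l1]

theorem l1_one : l1 1 = 1 := by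
  have := l1_C 1
  simpa using this

theorem l1_X_pow_mul (k : ℕ) (p : ℤ[X]) : l1 (X ^ k * p) ≤ l1 p := by
  by_cases hp : p = 0
  · simp [hp]
  rw [l1_eq (X ^ k * p) (n := k + (p.natDegree + 1)) (by
    have := Polynomial.natDegree_mul_le (p := (X : ℤ[X]) ^ k) (q := p)
    have h2 := Polynomial.natDegree_X_pow_le (R := ℤ) k
    omega)]
  rw [Finset.sum_range_add, l1]
  have h1 : ∑ x ∈ Finset.range k, |(((X ^ k * p : ℤ[X])).coeff x : ℝ)| = 0 := by
    refine Finset.sum_eq_zero fun i hi => ?_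
    rw [Finset.mem_range] at hi
    rw [Polynomial.coeff_X_pow_mul', if_neg (by omega)]
    simp
  rw [h1, zero_add]
  refine Finset.sum_le_sum fun i _ => ?_
  rw [Polynomial.coeff_X_pow_mul', if_pos (by omega)]
  simp

theorem l1_mul (p q : ℤ[X]) : l1 (p * q) ≤ l1 p * l1 q := by
  have h : p * q = ∑ i ∈ Finset.range (p.natDegree + 1), C (p.coeff i) * (X ^ i * q) := by
    conv_lhs => rw [p.as_sum_range_C_mul_X_pow]
    rw [Finset.sum_mul]
    exact Finset.sum_congr rfl fun i _ => by ring
  rw [h]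
  refine (l1_sum _ _).trans ?_
  rw [show l1 p = ∑ i ∈ Finset.range (p.natDegree + 1), |(p.coeff i : ℝ)| from rfl, Finset.sum_mul]
  refine Finset.sum_le_sum fun i _ => ?_
  exact (l1_C_mul _ _).trans (mul_le_mul_of_nonneg_left (l1_X_pow_mul _ _) (abs_nonneg _))

theorem l1_pow (p : ℤ[X]) (k : ℕ) : l1 (p ^ k) ≤ l1 p ^ k := by
  induction k with
  | zero => simp [l1_one]
  | succ k ih =>
    rw [pow_succ, pow_succ]
    exact (l1_mul _ _).trans (mul_le_mul_of_nonneg_right ih (l1_nonneg _))

theorem norm_aeval_le (θ : ℂ) (p : ℤ[X]) {d : ℕ} (hd : p.natDegree ≤ d) :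
    ‖aeval θ p‖ ≤ l1 p * max 1 ‖θ‖ ^ d := by
  rw [Polynomial.aeval_eq_sum_range, l1, Finset.sum_mul]
  refine (norm_sum_le _ _).trans (Finset.sum_le_sum fun i hi => ?_)
  rw [Finset.mem_range] at hi
  rw [zsmul_eq_mul, norm_mul, norm_pow]
  have h1 : ‖((p.coeff i : ℤ) : ℂ)‖ = |(p.coeff i : ℝ)| := by
    rw [Complex.norm_intCast]
  rw [h1]
  refine mul_le_mul_of_nonneg_left ?_ (abs_nonneg _)
  calc ‖θ‖ ^ i ≤ max 1 ‖θ‖ ^ i := pow_le_pow_left₀ (norm_nonneg _) (le_max_right _ _) _
    _ ≤ max 1 ‖θ‖ ^ d := pow_le_pow_right₀ (le_max_left _ _) (by omega)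

/-- a seminorm of a determinant is at most the product of the column sums -/
theorem det_le {R : Type*} [CommRing R] (ν : R → ℝ) (h0 : ∀ x, 0 ≤ ν x) (hz : ν 0 = 0)
    (hadd : ∀ x y, ν (x + y) ≤ ν x + ν y) (hmul : ∀ x y, ν (x * y) ≤ ν x * ν y)
    (hone : ν 1 ≤ 1) (hneg : ∀ x, ν (-x) = ν x) {n : Type*} [Fintype n] [DecidableEq n]
    (A : Matrix n n R) : ν A.det ≤ ∏ j, ∑ i, ν (A i j) := by
  have hsum : ∀ {ι : Type _} (s : Finset ι) (f : ι → R), ν (∑ i ∈ s, f i) ≤ ∑ i ∈ s, ν (f i) := by
    intro ι s f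
    classical
    induction s using Finset.induction_on with
    | empty => simp [hz]
    | insert a s ha ih =>
      rw [Finset.sum_insert ha, Finset.sum_insert ha]
      exact (hadd _ _).trans (by linarith)
  have hprod : ∀ {ι : Type _} (s : Finset ι) (f : ι → R), ν (∏ i ∈ s, f i) ≤ ∏ i ∈ s, ν (f i) := by
    intro ι s f
    classical
    induction s using Finset.induction_on with
    | empty => simpa using hone
    | insert a s ha ih =>
      rw [Finset.prod_insert ha, Finset.prod_insert ha]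
      exact (hmul _ _).trans (mul_le_mul_of_nonneg_left ih (h0 _))
  rw [Matrix.det_apply]
  refine (hsum _ _).trans ?_
  have h1 : ∀ σ : Equiv.Perm n, ν (Equiv.Perm.sign σ • ∏ i, A (σ i) i) ≤ ∏ i, ν (A (σ i) i) := by
    intro σ
    refine le_trans (le_of_eq ?_) (hprod _ _)
    rcases Int.units_eq_one_or (Equiv.Perm.sign σ) with h | h
    · rw [h, one_smul]
    · rw [h, Units.neg_smul, one_smul, hneg]
  refine (Finset.sum_le_sum fun σ _ => h1 σ).trans ?_
  rw [Finset.prod_univ_sum]
  have hinj : Function.Injective (fun σ : Equiv.Perm n => (fun i => σ i : n → n)) := by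
    intro σ τ h
    ext i
    exact congrFun h i
  calc ∑ σ : Equiv.Perm n, ∏ i, ν (A (σ i) i)
      = ∑ f ∈ (Finset.univ : Finset (Equiv.Perm n)).map ⟨_, hinj⟩, ∏ i, ν (A (f i) i) := by
        rw [Finset.sum_map]
        rfl
    _ ≤ ∑ f ∈ Fintype.piFinset (fun _ : n => (Finset.univ : Finset n)), ∏ i, ν (A (f i) i) := by
        refine Finset.sum_le_sum_of_subset_of_nonneg ?_ ?_
        · intro f _
          simp
        · intro f _ _
          exact Finset.prod_nonneg fun _ _ => h0 _

theorem col_sum (p : ℤ[X]) (d N j : ℕ) :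
    ∑ i : Fin N, ‖((if (i : ℕ) ∈ Set.Icc j (j + d) then p.coeff ((i : ℕ) - j) else 0 : ℤ) : ℂ)‖ ≤ l1 p := by
  have h1 : ∀ i : Fin N, ‖((if (i : ℕ) ∈ Set.Icc j (j + d) then p.coeff ((i : ℕ) - j) else 0 : ℤ) : ℂ)‖ ≤
      |((X ^ j * p : ℤ[X]).coeff (i : ℕ) : ℝ)| := by
    intro i
    rw [Complex.norm_intCast, Polynomial.coeff_X_pow_mul']
    by_cases h : (i : ℕ) ∈ Set.Icc j (j + d)
    · rw [if_pos h, if_pos h.1]
    · rw [if_neg h]
      simp
  refine (Finset.sum_le_sum fun i _ => h1 i).trans ?_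
  rw [Fin.sum_univ_eq_sum_range (fun i => |((X ^ j * p : ℤ[X]).coeff i : ℝ)|) N]
  refine le_trans ?_ (l1_X_pow_mul j p)
  rw [l1_eq (X ^ j * p) (n := max N ((X ^ j * p : ℤ[X]).natDegree + 1)) (by
    exact lt_of_lt_of_le (Nat.lt_succ_self _) (le_max_right _ _))]
  exact Finset.sum_le_sum_of_subset_of_nonneg (Finset.range_mono (le_max_left _ _))
    (fun _ _ _ => abs_nonneg _)

theorem row_comb (θ : ℂ) (f g : ℤ[X]) :
    ∀ j : Fin (f.natDegree + g.natDegree),
      ∑ i : Fin (f.natDegree + g.natDegree), θ ^ (i : ℕ) *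
        ((Int.castRingHom ℂ).mapMatrix (sylvester f g f.natDegree g.natDegree)) i j =
      j.addCases (fun j₁ => θ ^ (j₁ : ℕ) * aeval θ g) (fun j₁ => θ ^ (j₁ : ℕ) * aeval θ f) := by
  have key : ∀ (p : ℤ[X]) (N j : ℕ), j + p.natDegree < N →
      ∑ i : Fin N, θ ^ (i : ℕ) * ((if (i : ℕ) ∈ Set.Icc j (j + p.natDegree) then
        p.coeff ((i : ℕ) - j) else 0 : ℤ) : ℂ) = θ ^ j * aeval θ p := by
    intro p N j hN
    rw [Fin.sum_univ_eq_sum_range (fun i => θ ^ i * ((if i ∈ Set.Icc j (j + p.natDegree) then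
        p.coeff (i - j) else 0 : ℤ) : ℂ)) N]
    have h2 : N = j + (p.natDegree + 1) + (N - (j + (p.natDegree + 1))) := by omega
    rw [h2, Finset.sum_range_add, Finset.sum_range_add]
    have h3 : ∑ x ∈ Finset.range j, θ ^ x * ((if x ∈ Set.Icc j (j + p.natDegree) then
        p.coeff (x - j) else 0 : ℤ) : ℂ) = 0 := by
      refine Finset.sum_eq_zero fun x hx => ?_
      rw [Finset.mem_range] at hx
      rw [if_neg (by simp only [Set.mem_Icc]; omega)]
      simp
    have h4 : ∑ x ∈ Finset.range (N - (j + (p.natDegree + 1))), θ ^ (j + (p.natDegree + 1) + x) *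
        ((if j + (p.natDegree + 1) + x ∈ Set.Icc j (j + p.natDegree) then
        p.coeff (j + (p.natDegree + 1) + x - j) else 0 : ℤ) : ℂ) = 0 := by
      refine Finset.sum_eq_zero fun x hx => ?_
      rw [if_neg (by simp only [Set.mem_Icc]; omega)]
      simp
    rw [h3, h4, zero_add, add_zero, Polynomial.aeval_eq_sum_range, Finset.mul_sum]
    refine Finset.sum_congr rfl fun x hx => ?_
    rw [Finset.mem_range] at hx
    rw [if_pos (by simp only [Set.mem_Icc]; omega), zsmul_eq_mul, Nat.add_sub_cancel_left, pow_add]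
    ring
  intro j
  refine Fin.addCases (fun j₁ => ?_) (fun j₁ => ?_) j
  · rw [Fin.addCases_left]
    have := key g (f.natDegree + g.natDegree) j₁ (by omega)
    rw [← this]
    refine Finset.sum_congr rfl fun i _ => ?_
    rw [RingHom.mapMatrix_apply, Matrix.map_apply, sylvester, Matrix.of_apply, Fin.addCases_left]
    rfl
  · rw [Fin.addCases_right]
    have := key f (f.natDegree + g.natDegree) j₁ (by omega)
    rw [← this]
    refine Finset.sum_congr rfl fun i _ => ?_
    rw [RingHom.mapMatrix_apply, Matrix.map_apply, sylvester, Matrix.of_apply, Fin.addCases_right]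
    rfl

/-- the fundamental inequality for two integer polynomials with nonzero resultant -/
theorem res_bound (θ : ℂ) (f g : ℤ[X]) (hf : f ≠ 0) (hg : g ≠ 0)
    (hn : 0 < f.natDegree + g.natDegree) (hres : resultant f g ≠ 0) :
    1 ≤ (2 * max 1 ‖θ‖) ^ (f.natDegree + g.natDegree) * (l1 g ^ f.natDegree * l1 f ^ g.natDegree) *
      max ‖aeval θ f‖ ‖aeval θ g‖ := by
  set m := f.natDegree with hm
  set n := g.natDegree with hn'
  set S : Matrix (Fin (m + n)) (Fin (m + n)) ℂ := (Int.castRingHom ℂ).mapMatrix (sylvester f g m n) with hS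
  set M : ℝ := max 1 ‖θ‖ with hM
  have hM1 : 1 ≤ M := le_max_left _ _
  set δ : ℝ := max ‖aeval θ f‖ ‖aeval θ g‖ with hδ
  have hdet : S.det = ((resultant f g m n : ℤ) : ℂ) := by
    rw [hS, ← RingHom.map_det]
    rfl
  have hdet1 : 1 ≤ ‖S.det‖ := by
    rw [hdet, Complex.norm_intCast]
    have : (1 : ℤ) ≤ |resultant f g m n| := Int.one_le_abs hres
    exact_mod_cast this
  have hδ0 : 0 ≤ δ := (norm_nonneg _).trans (le_max_left _ _)
  have i0 : Fin (m + n) := ⟨0, hn⟩
  set z : Fin (m + n) := ⟨0, hn⟩ with hz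
  set w : Fin (m + n) → ℂ := fun j => j.addCases (fun j₁ => θ ^ (j₁ : ℕ) * aeval θ g)
    (fun j₁ => θ ^ (j₁ : ℕ) * aeval θ f) with hw
  have hrow : (∑ k : Fin (m + n), (θ ^ (k : ℕ)) • S k) = w := by
    funext j
    rw [Finset.sum_apply]
    have := row_comb θ f g j
    simp only [Pi.smul_apply, smul_eq_mul]
    exact this
  have hup : (S.updateRow z w).det = S.det := by
    rw [← hrow, Matrix.det_updateRow_sum]
    simp [hz]
  -- bound of the entries of `w`
  have hwb : ∀ j, ‖w j‖ ≤ M ^ (m + n) * δ := by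
    intro j
    have hpow : ∀ k : ℕ, k ≤ m + n → ‖θ ^ k‖ ≤ M ^ (m + n) := by
      intro k hk
      rw [norm_pow]
      exact (pow_le_pow_left₀ (norm_nonneg _) (le_max_right _ _) _).trans (pow_le_pow_right₀ hM1 hk)
    refine Fin.addCases (fun j₁ => ?_) (fun j₁ => ?_) j
    · rw [hw]
      simp only [Fin.addCases_left]
      rw [norm_mul]
      exact mul_le_mul (hpow _ (by omega)) (le_max_right _ _) (norm_nonneg _) (by positivity)
    · rw [hw]
      simp only [Fin.addCases_right]
      rw [norm_mul]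
      exact mul_le_mul (hpow _ (by omega)) (le_max_left _ _) (norm_nonneg _) (by positivity)
  set ε : ℝ := M ^ (m + n) * δ with hε
  have hε0 : 0 ≤ ε := by positivity
  have hεpos : 0 < ε := by
    rcases hε0.lt_or_eq with h | h
    · exact h
    · exfalso
      have hw0 : w = 0 := by
        funext j
        have := hwb j
        rw [← h] at this
        exact norm_le_zero_iff.1 this
      rw [hw0] at hup
      have : (S.updateRow z (0 : Fin (m + n) → ℂ)).det = 0 :=
        Matrix.det_eq_zero_of_row_eq_zero z (fun j => by simp)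
      rw [this] at hup
      rw [← hup, norm_zero] at hdet1
      linarith
  have hwu : w = (ε : ℂ) • (fun j => w j / (ε : ℂ)) := by
    have hεc : (ε : ℂ) ≠ 0 := by exact_mod_cast hεpos.ne'
    funext j
    simp only [Pi.smul_apply, smul_eq_mul]
    field_simp
  set u : Fin (m + n) → ℂ := fun j => w j / (ε : ℂ) with hu
  have hub : ∀ j, ‖u j‖ ≤ 1 := by
    intro j
    rw [hu]
    simp only
    rw [norm_div, Complex.norm_real, Real.norm_of_nonneg hε0, div_le_one hεpos]
    exact hwb j
  have hdetu : S.det = (ε : ℂ) * (S.updateRow z u).det := by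
    rw [← hup, hwu, Matrix.det_updateRow_smul]
  have hlf : 1 ≤ l1 f := one_le_l1 hf
  have hlg : 1 ≤ l1 g := one_le_l1 hg
  have hcol : ∀ j : Fin (m + n), ∑ i, ‖(S.updateRow z u) i j‖ ≤
      j.addCases (fun _ => 2 * l1 g) (fun _ => 2 * l1 f) := by
    intro j
    have h1 : ∑ i, ‖(S.updateRow z u) i j‖ ≤ 1 + ∑ i, ‖S i j‖ := by
      calc ∑ i, ‖(S.updateRow z u) i j‖ ≤ ∑ i, ((if i = z then 1 else 0) + ‖S i j‖) := by
            refine Finset.sum_le_sum fun i _ => ?_
            by_cases hi : i = z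
            · rw [if_pos hi, hi, Matrix.updateRow_self]
              have := hub j
              have := norm_nonneg (S z j)
              linarith
            · rw [if_neg hi, Matrix.updateRow_ne hi]
              simp
        _ = 1 + ∑ i, ‖S i j‖ := by
            rw [Finset.sum_add_distrib]
            simp
    refine h1.trans ?_
    refine Fin.addCases (fun j₁ => ?_) (fun j₁ => ?_) j
    · rw [Fin.addCases_left]
      have h2 : ∑ i, ‖S i (Fin.castAdd n j₁)‖ ≤ l1 g := by
        have := col_sum g n (m + n) j₁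
        refine le_trans (le_of_eq ?_) this
        refine Finset.sum_congr rfl fun i _ => ?_
        rw [hS, RingHom.mapMatrix_apply, Matrix.map_apply, sylvester, Matrix.of_apply, Fin.addCases_left]
        rfl
      linarith
    · rw [Fin.addCases_right]
      have h2 : ∑ i, ‖S i (Fin.natAdd m j₁)‖ ≤ l1 f := by
        have := col_sum f m (m + n) j₁
        refine le_trans (le_of_eq ?_) this
        refine Finset.sum_congr rfl fun i _ => ?_
        rw [hS, RingHom.mapMatrix_apply, Matrix.map_apply, sylvester, Matrix.of_apply, Fin.addCases_right]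
        rfl
      linarith
  have hdetb : ‖(S.updateRow z u).det‖ ≤ ∏ j : Fin (m + n), (j.addCases (fun _ => 2 * l1 g) (fun _ => 2 * l1 f) : ℝ) := by
    refine (det_le (fun x : ℂ => ‖x‖) norm_nonneg norm_zero norm_add_le (fun x y => (norm_mul x y).le)
      (by simp) norm_neg _).trans ?_
    exact Finset.prod_le_prod (fun j _ => Finset.sum_nonneg fun _ _ => norm_nonneg _) (fun j _ => hcol j)
  have hprod : ∏ j : Fin (m + n), (j.addCases (fun _ => 2 * l1 g) (fun _ => 2 * l1 f) : ℝ) =
      (2 * l1 g) ^ m * (2 * l1 f) ^ n := by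
    rw [Fin.prod_univ_add]
    simp
  calc (1 : ℝ) ≤ ‖S.det‖ := hdet1
    _ = ε * ‖(S.updateRow z u).det‖ := by
        rw [hdetu, norm_mul, Complex.norm_real, Real.norm_of_nonneg hε0]
    _ ≤ ε * ((2 * l1 g) ^ m * (2 * l1 f) ^ n) := by
        refine mul_le_mul_of_nonneg_left ?_ hε0
        rw [← hprod]
        exact hdetb
    _ = _ := by
        rw [hε]
        ring

end Pool.Agent.CHG
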