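import Pool.Agent.CHG.One

/-! # Numbers acting on a finitely generated `ℤ[θ]`-module by matrices of controlled size -/

set_option autoImplicit false

namespace Pool.Agent.CHG

open Polynomial Finset

/-- the algebra structure of `ℂ` over `ℤ[X]`, `X ↦ θ` -/
@[reducible] noncomputable def algθ (θ : ℂ) : Algebra ℤ[X] ℂ := (aeval θ : ℤ[X] →ₐ[ℤ] ℂ).toRingHom.toAlgebra

theorem exists_rep (θ : ℂ) (hθ : ∀ p : ℤ[X], p ≠ 0 → aeval θ p ≠ 0) {r : ℕ} (a : Fin r → ℂ)
    (ha : ∀ j, ∃ F : ℤ[X][X], F ≠ 0 ∧ F.eval₂ (aeval θ : ℤ[X] →ₐ[ℤ] ℂ).toRingHom (a j) = 0) :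
    ∃ (d : ℤ[X]) (m : ℕ) (v : Fin m → ℂ) (B : Fin r → Matrix (Fin m) (Fin m) ℤ[X]), d ≠ 0 ∧ v ≠ 0 ∧
      ∀ j s, ∑ t, aeval θ (B j s t) * v t = (aeval θ d * a j) * v s := by
  letI := algθ θ
  have hmap : ∀ p : ℤ[X], algebraMap ℤ[X] ℂ p = aeval θ p := fun p => rfl
  have hsm : ∀ (p : ℤ[X]) (z : ℂ), p • z = aeval θ p * z := fun p z => rfl
  have hinj : Function.Injective (algebraMap ℤ[X] ℂ) := by
    rw [injective_iff_map_eq_zero]
    intro p hp
    by_contra h
    exact hθ p h hp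
  have h1 : ∀ j, ∃ y : ℤ[X], y ≠ 0 ∧ IsIntegral ℤ[X] (y • a j) := by
    intro j
    obtain ⟨F, hF, h0⟩ := ha j
    have halg : IsAlgebraic ℤ[X] (a j) := ⟨F, hF, by rw [aeval_def]; exact h0⟩
    obtain ⟨y, hy, hi⟩ := halg.exists_integral_multiple
    exact ⟨y, hy, hi⟩
  choose y hy hyi using h1
  set d : ℤ[X] := ∏ j, y j with hd
  have hd0 : d ≠ 0 := Finset.prod_ne_zero_iff.2 fun j _ => hy j
  have hint : ∀ j, IsIntegral ℤ[X] (d • a j) := by
    intro j
    have : d • a j = (∏ k ∈ Finset.univ.erase j, y k) • (y j • a j) := by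
      rw [smul_smul, hd, Finset.prod_erase_mul _ _ (Finset.mem_univ j)]
    rw [this]
    exact (hyi j).smul _
  set S : Subalgebra ℤ[X] ℂ := Algebra.adjoin ℤ[X] (Set.range fun j => d • a j) with hS
  have hfg : (Subalgebra.toSubmodule S).FG := by
    refine fg_adjoin_of_finite (Set.finite_range _) ?_
    rintro x ⟨j, rfl⟩
    exact hint j
  obtain ⟨m, v, hv⟩ := Submodule.fg_iff_exists_fin_generating_family.1 hfg
  have hmem : ∀ x : ℂ, x ∈ S → ∃ c : Fin m → ℤ[X], ∑ t, aeval θ (c t) * v t = x := by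
    intro x hx
    have : x ∈ Submodule.span ℤ[X] (Set.range v) := by
      rw [hv]
      exact hx
    obtain ⟨c, hc⟩ := (Submodule.mem_span_range_iff_exists_fun _).1 this
    exact ⟨c, hc⟩
  have hvS : ∀ s, v s ∈ S := by
    intro s
    have : v s ∈ Submodule.span ℤ[X] (Set.range v) := Submodule.subset_span ⟨s, rfl⟩
    rw [hv] at this
    exact this
  have hB : ∀ j s, ∃ c : Fin m → ℤ[X], ∑ t, aeval θ (c t) * v t = (aeval θ d * a j) * v s := by
    intro j s
    apply hmem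
    refine S.mul_mem ?_ (hvS s)
    exact Algebra.subset_adjoin ⟨j, rfl⟩
  choose B hB using hB
  refine ⟨d, m, v, fun j => Matrix.of (B j), hd0, ?_, fun j s => hB j s⟩
  intro hv0
  obtain ⟨c, hc⟩ := hmem 1 S.one_mem
  rw [hv0] at hc
  simp at hc

variable {m : ℕ}

/-- `x` acts on the vector `v` by a matrix over `ℤ[θ]` with entries of degree `≤ n` and row sums of
lengths `≤ β` -/
def Rep (θ : ℂ) (v : Fin m → ℂ) (n : ℕ) (β : ℝ) (x : ℂ) : Prop :=
  0 ≤ β ∧ ∃ B : Matrix (Fin m) (Fin m) ℤ[X], (∀ s, ∑ t, aeval θ (B s t) * v t = x * v s) ∧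
    (∀ s t, (B s t).natDegree ≤ n) ∧ ∀ s, ∑ t, l1 (B s t) ≤ β

variable {θ : ℂ} {v : Fin m → ℂ}

theorem Rep.mono {n n' : ℕ} {β β' : ℝ} {x : ℂ} (h : Rep θ v n β x) (hn : n ≤ n') (hβ : β ≤ β') :
    Rep θ v n' β' x := by
  obtain ⟨h0, B, h1, h2, h3⟩ := h
  exact ⟨h0.trans hβ, B, h1, fun s t => (h2 s t).trans hn, fun s => (h3 s).trans hβ⟩

theorem Rep.mul {n n' : ℕ} {β β' : ℝ} {x y : ℂ} (h : Rep θ v n β x) (h' : Rep θ v n' β' y) :
    Rep θ v (n + n') (β * β') (x * y) := by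
  obtain ⟨h0, B, h1, h2, h3⟩ := h
  obtain ⟨h0', B', h1', h2', h3'⟩ := h'
  refine ⟨mul_nonneg h0 h0', B * B', ?_, ?_, ?_⟩
  · intro s
    calc ∑ t, aeval θ ((B * B') s t) * v t = ∑ t, ∑ u, aeval θ (B s u) * (aeval θ (B' u t) * v t) := by
          refine Finset.sum_congr rfl fun t _ => ?_
          rw [Matrix.mul_apply, map_sum, Finset.sum_mul]
          refine Finset.sum_congr rfl fun u _ => ?_
          rw [map_mul, mul_assoc]
      _ = ∑ u, aeval θ (B s u) * (y * v u) := by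
          rw [Finset.sum_comm]
          refine Finset.sum_congr rfl fun u _ => ?_
          rw [← Finset.mul_sum, h1' u]
      _ = y * ∑ u, aeval θ (B s u) * v u := by
          rw [Finset.mul_sum]
          refine Finset.sum_congr rfl fun u _ => by ring
      _ = x * y * v s := by
          rw [h1 s]
          ring
  · intro s t
    rw [Matrix.mul_apply]
    refine natDegree_sum_le_of_forall_le _ _ fun u _ => ?_
    exact natDegree_mul_le.trans (add_le_add (h2 s u) (h2' u t))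
  · intro s
    calc ∑ t, l1 ((B * B') s t) ≤ ∑ t, ∑ u, l1 (B s u) * l1 (B' u t) := by
          refine Finset.sum_le_sum fun t _ => ?_
          rw [Matrix.mul_apply]
          exact (l1_sum _ _).trans (Finset.sum_le_sum fun u _ => l1_mul _ _)
      _ = ∑ u, l1 (B s u) * ∑ t, l1 (B' u t) := by
          rw [Finset.sum_comm]
          refine Finset.sum_congr rfl fun u _ => by rw [Finset.mul_sum]
      _ ≤ ∑ u, l1 (B s u) * β' :=
          Finset.sum_le_sum fun u _ => mul_le_mul_of_nonneg_left (h3' u) (l1_nonneg _)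
      _ = (∑ u, l1 (B s u)) * β' := by rw [Finset.sum_mul]
      _ ≤ β * β' := mul_le_mul_of_nonneg_right (h3 s) h0'

theorem Rep.add {n : ℕ} {β β' : ℝ} {x y : ℂ} (h : Rep θ v n β x) (h' : Rep θ v n β' y) :
    Rep θ v n (β + β') (x + y) := by
  obtain ⟨h0, B, h1, h2, h3⟩ := h
  obtain ⟨h0', B', h1', h2', h3'⟩ := h'
  refine ⟨add_nonneg h0 h0', B + B', ?_, ?_, ?_⟩
  · intro s
    rw [add_mul, ← h1 s, ← h1' s, ← Finset.sum_add_distrib]
    refine Finset.sum_congr rfl fun t _ => ?_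
    rw [Matrix.add_apply, map_add]
    ring
  · intro s t
    rw [Matrix.add_apply]
    exact (natDegree_add_le _ _).trans (max_le (h2 s t) (h2' s t))
  · intro s
    calc ∑ t, l1 ((B + B') s t) ≤ ∑ t, (l1 (B s t) + l1 (B' s t)) :=
          Finset.sum_le_sum fun t _ => l1_add _ _
      _ ≤ β + β' := by
          rw [Finset.sum_add_distrib]
          exact add_le_add (h3 s) (h3' s)

theorem Rep.scalar (p : ℤ[X]) : Rep θ v p.natDegree (l1 p) (aeval θ p) := by
  refine ⟨l1_nonneg p, Matrix.scalar (Fin m) p, ?_, ?_, ?_⟩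
  · intro s
    rw [Finset.sum_eq_single s]
    · simp
    · intro t _ hts
      simp [Matrix.scalar_apply, Matrix.diagonal_apply_ne' _ hts]
    · simp
  · intro s t
    by_cases h : s = t
    · subst h
      simp
    · simp [Matrix.scalar_apply, Matrix.diagonal_apply_ne _ h]
  · intro s
    rw [Finset.sum_eq_single s]
    · simp
    · intro t _ hts
      rw [Matrix.scalar_apply, Matrix.diagonal_apply_ne' _ hts, l1_zero]
    · simp

theorem Rep.one : Rep θ v 0 1 (1 : ℂ) := by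
  have := Rep.scalar (θ := θ) (v := v) (1 : ℤ[X])
  rw [l1_one, map_one, natDegree_one] at this
  exact this

theorem Rep.int_mul {n : ℕ} {β : ℝ} {x : ℂ} (c : ℤ) (h : Rep θ v n β x) :
    Rep θ v n (|(c : ℝ)| * β) (c * x) := by
  have h1 := (Rep.scalar (θ := θ) (v := v) (C c : ℤ[X])).mul h
  rw [l1_C, natDegree_C, zero_add] at h1
  have h2 : aeval θ (C c : ℤ[X]) = (c : ℂ) := by
    rw [aeval_C]
    simp
  rwa [h2] at h1

theorem Rep.sum {ι : Type*} (S : Finset ι) (n : ℕ) (β : ι → ℝ) (x : ι → ℂ)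
    (h : ∀ i ∈ S, Rep θ v n (β i) (x i)) : Rep θ v n (∑ i ∈ S, β i) (∑ i ∈ S, x i) := by
  classical
  induction S using Finset.induction_on with
  | empty =>
    refine ⟨by simp, 0, ?_, ?_, ?_⟩
    · intro s
      simp
    · intro s t
      simp
    · intro s
      simp [l1_zero]
  | insert i S hi ih =>
    rw [Finset.sum_insert hi, Finset.sum_insert hi]
    exact (h i (Finset.mem_insert_self _ _)).add (ih fun j hj => h j (Finset.mem_insert_of_mem hj))

theorem Rep.pow {n : ℕ} {β : ℝ} {x : ℂ} (h : Rep θ v n β x) (k : ℕ) : Rep θ v (n * k) (β ^ k) (x ^ k) := by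
  induction k with
  | zero => simpa using Rep.one (θ := θ) (v := v)
  | succ k ih =>
    rw [pow_succ, pow_succ, Nat.mul_succ]
    exact ih.mul h

theorem Rep.prod_pow {ι : Type*} (S : Finset ι) {n : ℕ} {β : ℝ} (x : ι → ℂ) (k : ι → ℕ)
    (h : ∀ i ∈ S, Rep θ v n β (x i)) :
    Rep θ v (n * ∑ i ∈ S, k i) (β ^ (∑ i ∈ S, k i)) (∏ i ∈ S, x i ^ k i) := by
  classical
  induction S using Finset.induction_on with
  | empty => simpa using Rep.one (θ := θ) (v := v)
  | insert i S hi ih =>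
    rw [Finset.sum_insert hi, Finset.prod_insert hi, Nat.mul_add, pow_add]
    exact ((h i (Finset.mem_insert_self _ _)).pow _).mul (ih fun j hj => h j (Finset.mem_insert_of_mem hj))

end Pool.Agent.CHG
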